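import Pool.Agent.K4H53.BSX.Q11

/-!
# The Birch and Swinnerton-Dyer formula modulo 2 over abelian 2-extensions

`W` is the minimal equation of an elliptic curve `E` over `ℚ` such that `a_q(E)` is odd for some odd prime
`q` of good reduction, and such that the periods of the newform of `E` are in an odd multiple of the period
lattice of `E` (these are the conditions `Good`).  `K` is a number field of degree `2^k` that is contained
in a cyclotomic field `ℚ(ζ_n)`, where `n = m` or `n = 4 m`, with `m` odd, squarefree and prime to the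
discriminant `Δ`; if `n = 4 m` then `E` has supersingular reduction at two.  So `K` is an abelian extension
of `ℚ` of 2-power degree whose conductor is prime to `2 Δ`, or prime to `Δ` and not divisible by `8`; all
these extensions are obtained.  For `F = ℚ` and for `F = K` let
`x(F) = L(E/F, 1) √|Δ_F| #E(F)_tors² / Ω`.  The formula of Birch and Swinnerton-Dyer modulo 2 says that
`x(F)` is rational with odd denominator, and that its numerator is odd if and only if the rank of `E(F)` is
zero, `Ш(E/F)[2^∞] = 0` and the Tamagawa numbers are odd.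

Let `A` be the statement that `a_l` is odd for all odd primes `l` that divide the discriminant of `K`, and
that `K` is totally real if `Δ > 0`.  We prove (`Compare`)

* the equation is minimal over `K`, and the Tamagawa products over `ℚ` and `K` have the same parity;
* `x(ℚ)` and `x(K)` have odd denominators, and `x(K)` is odd if and only if `x(ℚ)` is odd and `A` holds;
* if `rank E(K) = 0` and `Ш(E/K)[2^∞] = 0` then `rank E(ℚ) = 0`, `Ш(E/ℚ)[2^∞] = 0` and `A` holds; the
  converse holds if the Tamagawa numbers over `ℚ` are odd.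

So the formula modulo 2 over `ℚ` implies the formula modulo 2 over all such fields `K`; the converse holds
if `A` holds; and if `A` does not hold the formula holds over `K` without an assumption on `E` over `ℚ`.

For `E = X_0(11)` the hypotheses are proved, also the formula modulo 2 over `ℚ`, so for this curve the
formula modulo 2 holds over all abelian 2-extensions of conductor prime to `11` and not divisible by `8`,
without any hypothesis, and both sides are computed.

Earlier results of this kind needed that the primes of `2 Δ` split completely in `K`.  The new points: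

* unramified places of bad reduction: every point of `E⁰(K_v)` that is invariant is a norm, the first
  cohomology of `E(K_v)` has odd order if the component group has odd order, the parity of the component
  group over unramified extensions, minimality, and the Euler factors;
* ramified places above two, supersingular reduction: over `k' = k(i)`, `k` an unramified extension of
  `ℚ_2`, every point of `E(k)` is a norm from `E(k')`, and every point `P` of `E(k')` with `P + σ P = 0` is
  `Q - σ Q`, by the filtration of the formal group, with the addition law up to terms of third order;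
* if `K` has a complex place and `Δ > 0` then the Selmer group of `2` over `K` is not zero, by a count of
  units in the cubic field of the points of order two;
* the modular symbols with denominator `4 q`: the sum of all of them is `(a_2² - 2 a_2 - 1) ∏ (a_l - 2)`
  times the value at the centre;
* the conductor-discriminant formula for the subfields of `ℚ(ζ_(4 m))`.
-/

set_option autoImplicit false

open NumberField NumberField.InfinitePlace IsDedekindDomain WeierstrassCurve MeasureTheory
open UpperHalfPlane MatrixGroups CongruenceSubgroup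

namespace Pool.Agent.Results.MP_1a91b9_nt.FormulaModTwoExtensions

open scoped Classical

open Pool.Agent.TH841.NF.D (Sha)
open Pool.Agent.K4H53.BSX.D

/-- The equation `y² + y = x³ - x² - 10 x - 20` of the modular curve `X_0(11)`. -/
def X11 : WeierstrassCurve ℤ := ⟨0, -1, 1, -10, -20⟩

/-- The conditions on the curve: the equation `W` is minimal at all primes; there is a newform `f` of `W`
such that the periods of `2 π i f(z) dz` on `Γ₀(N)`, times an odd integer `c`, are in the period lattice of
the differential `dx / (2 y + a₁ x + a₃)` of `W`, which is the lattice with `g₂ = c₄ / 12` and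
`g₃ = c₆ / 216` (the Manin constant is odd); and `a_q` is odd for some prime `q` that does not divide
`2 Δ`. -/
structure Good (W : WeierstrassCurve ℤ) : Prop where
  ne : W.Δ ≠ 0
  min : ∀ p : HeightOneSpectrum (𝓞 ℚ), MinimalAt W p
  form : ∃ N : ℕ, N ≠ 0 ∧ ∃ f : CuspForm (Gamma0 N : Subgroup (GL (Fin 2) ℝ)) 2, IsNewform W N f ∧
    ∃ Λ : PeriodPair, Λ.g₂ = (W.c₄ : ℂ) / 12 ∧ Λ.g₃ = (W.c₆ : ℂ) / 216 ∧
      ∃ c : ℤ, Odd c ∧ ∀ γ ∈ Gamma0 N, ∀ z : ℍ,
        (c : ℂ) * (prim f ((γ • z : ℍ) : ℂ) - prim f (z : ℂ)) ∈ Λ.lattice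
  odd : ∃ q : ℕ, q.Prime ∧ ¬ (q : ℤ) ∣ 2 * W.Δ ∧ Odd ((q : ℤ) - pts W (ZMod q))

/-- The conductors: `n = m`, or `n = 4 m` and `W` has supersingular reduction at two (`Δ` is odd and `a_2`
is even), where `m` is squarefree and prime to `2 Δ`. -/
def Level (W : WeierstrassCurve ℤ) (n : ℕ) : Prop :=
  ∃ m : ℕ, Squarefree m ∧ (∀ l : ℕ, l.Prime → l ∣ m → ¬ (l : ℤ) ∣ 2 * W.Δ) ∧
    (n = m ∨ (n = 4 * m ∧ ¬ (2 : ℤ) ∣ W.Δ ∧ Even ((2 : ℤ) - pts W (ZMod 2))))

/-- The statement `A`: `a_l` is odd for all odd primes `l` that divide the discriminant of `K`, and `K` is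
totally real if `Δ > 0`. -/
def A (K : Type) [Field K] [NumberField K] (W : WeierstrassCurve ℤ) : Prop :=
  (0 < W.Δ → IsTotallyReal K) ∧
    ∀ l : ℕ, l.Prime → (l : ℤ) ∣ discr K → l ≠ 2 → Odd ((l : ℤ) - pts W (ZMod l))

/-- The comparison of `ℚ` and `K`. -/
structure Compare (K : Type) [Field K] [NumberField K] (W : WeierstrassCurve ℤ) : Prop where
  /-- the equation is minimal over `K` -/
  min : ∀ v : HeightOneSpectrum (𝓞 K), MinimalAt W v
  /-- almost all the Tamagawa numbers are one -/
  fin : {v : HeightOneSpectrum (𝓞 K) | c W v ≠ 1}.Finite ∧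
    {p : HeightOneSpectrum (𝓞 ℚ) | c W p ≠ 1}.Finite
  /-- the Tamagawa products have the same parity -/
  tam : Odd (Tam K W) ↔ Odd (Tam ℚ W)
  /-- the torsion subgroups have odd order -/
  tors : Odd (Nat.card (tors K W)) ∧ Odd (Nat.card (Pool.Agent.K4H53.BSX.D.tors ℚ W))
  /-- the values -/
  value : ∃ x₀ x : ℚ, HasValue ℚ W x₀ ∧ HasValue K W x ∧ Odd x₀.den ∧ Odd x.den ∧
    (Odd x.num ↔ Odd x₀.num ∧ A K W)
  /-- from `K` to `ℚ` -/
  down : (rank K W = 0 ∧ Sha2 K W = {0}) → (rank ℚ W = 0 ∧ Sha2 ℚ W = {0}) ∧ A K W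
  /-- from `ℚ` to `K` -/
  up : Odd (Tam ℚ W) → (rank ℚ W = 0 ∧ Sha2 ℚ W = {0}) ∧ A K W → (rank K W = 0 ∧ Sha2 K W = {0})
  /-- the formula modulo 2, from `ℚ` to `K` -/
  bsd : BSDModTwo ℚ W → BSDModTwo K W
  /-- the formula modulo 2, from `K` to `ℚ` -/
  bsd_conv : A K W → BSDModTwo K W → BSDModTwo ℚ W
  /-- the formula modulo 2 if `A` is false -/
  bsd_not : ¬ A K W → BSDModTwo K W

lemma compare (W : WeierstrassCurve ℤ) (hW : Good W) (n : ℕ) [NeZero n] (hn : Level W n)
    (M : Type) [Field M] [NumberField M] [IsCyclotomicExtension {n} ℚ M]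
    (K : IntermediateField ℚ M) (k : ℕ) (hk : Module.finrank ℚ K = 2 ^ k) : Compare K W := by
  obtain ⟨N, hN, f, hf, Λ, hg₂, hg₃, hman⟩ := hW.form
  obtain ⟨q, hq, hqΔ, hqo⟩ := hW.odd
  have : NeZero N := ⟨hN⟩
  obtain ⟨m, hsq, hm, rfl | ⟨rfl, hΔ2, hss⟩⟩ := hn
  · have hdisc : ∀ l : ℕ, l.Prime → (l : ℤ) ∣ discr K → l ≠ 2 := by
      intro l hl hld hl2
      have hlm : l ∣ n := by
        by_contra hcon
        exact Pool.Agent.R425.not_disc K hl
          (fun v hv => Pool.Agent.Y702.Fn.unr n M K hl hcon v hv) hld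
      apply hm l hl hlm
      rw [hl2]
      exact Dvd.intro _ rfl
    obtain ⟨⟨h1, h2, h3, h3a, h3b, h4⟩, h5, h6, h7, h8, h9, h10⟩ :=
      Pool.Agent.K4H53.BSX.T1.main W hW.ne hW.min f hf Λ hg₂ hg₃
      hman q hq hqΔ hqo n hsq hm M K k hk (A K W)
      ⟨fun h => ⟨h.1, fun l hl hld => h.2 l hl hld (hdisc l hl hld)⟩,
        fun h => ⟨h.1, fun l hl hld _ => h.2 l hl hld⟩⟩
    exact ⟨h1, ⟨h2, h3⟩, h4, ⟨h3a, h3b⟩, h5, h6, h7, h8, h9, h10⟩
  · have : NeZero m := ⟨by
      rintro rfl
      exact NeZero.ne (4 * 0) (mul_zero 4)⟩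
    obtain ⟨⟨h1, h2, h3, h3a, h3b, h4⟩, h5, h6, h7, h8, h9, h10⟩ :=
      Pool.Agent.K4H53.BSX.R2.main W hW.ne hW.min f hf Λ hg₂ hg₃
      hman q hq hqΔ hqo hΔ2 hss m hsq hm M K k hk (A K W) Iff.rfl
    exact ⟨h1, ⟨h2, h3⟩, h4, ⟨h3a, h3b⟩, h5, h6, h7, h8, h9, h10⟩

lemma good11 : Good X11 := by
  obtain ⟨Λ, h2, h3, hman⟩ := Pool.Agent.K4H53.BSX.Q11.man11
  exact ⟨Pool.Agent.K4H53.BSX.Q11.disc_ne, Pool.Agent.K4H53.BSX.Q11.min11, ⟨11, by norm_num,
    Pool.Agent.W97.TW.f11, Pool.Agent.K4H53.BSX.Q11.newform11, Λ, h2, h3, hman⟩, ⟨3, by norm_num,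
    Pool.Agent.K4H53.BSX.Q11.not3, Pool.Agent.K4H53.BSX.a3_odd⟩⟩

/-- **Main theorem.** First part: `W` is a minimal equation with the conditions `Good`, `K` is a subfield
of degree `2^k` of the `n`-th cyclotomic field, where `n = m` or `n = 4 m` with `m` squarefree and prime to
`2 Δ`, and the reduction at two is supersingular if `n = 4 m`.  Second part: `X_0(11)` satisfies the
conditions, and the formula modulo 2 holds over all the fields `K` of degree `2^k` in `ℚ(ζ_(4 m))`, `m`
squarefree and prime to `22`. -/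
theorem result :
    (∀ W : WeierstrassCurve ℤ, Good W → ∀ (n : ℕ) [NeZero n], Level W n →
      ∀ (M : Type) [Field M] [NumberField M] [IsCyclotomicExtension {n} ℚ M]
        (K : IntermediateField ℚ M) (k : ℕ), Module.finrank ℚ K = 2 ^ k → Compare K W) ∧
    (Good X11 ∧ ∀ (m : ℕ) [NeZero m], Squarefree m → m.Coprime 22 →
      ∀ (M : Type) [Field M] [NumberField M] [IsCyclotomicExtension {4 * m} ℚ M]
        (K : IntermediateField ℚ M) (k : ℕ), Module.finrank ℚ K = 2 ^ k →
        BSDModTwo K X11 ∧ Odd (Tam K X11) ∧ ((rank K X11 = 0 ∧ Sha2 K X11 = {0}) ↔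
          ∀ l : ℕ, l.Prime → (l : ℤ) ∣ discr K → l ≠ 2 → Odd ((l : ℤ) - pts X11 (ZMod l)))) := by
  refine ⟨fun W hW n _ hn M _ _ _ K k hk => compare W hW n hn M K k hk, good11, ?_⟩
  intro m _ hsq hco M _ _ _ K k hk
  obtain ⟨hQ, hTQ, hsQ⟩ := Pool.Agent.K4H53.BSX.Q11.bsd_Q
  have : NeZero (4 * m) := ⟨mul_ne_zero (by norm_num) (NeZero.ne m)⟩
  have h := compare X11 good11 (4 * m) ⟨m, hsq, by
      intro l hl h h1
      have h4 := Pool.Agent.K4H53.BSX.Q11.dvd2 hl h1
      have h5 : l ∣ Nat.gcd m 22 := Nat.dvd_gcd h h4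
      rw [hco] at h5
      exact hl.one_lt.ne' (Nat.dvd_one.1 h5),
      Or.inr ⟨rfl, Pool.Agent.K4H53.BSX.Q11.disc_odd, Pool.Agent.K4H53.BSX.a2_even⟩⟩ M K k hk
  refine ⟨h.bsd hQ, h.tam.2 hTQ, ?_⟩
  constructor
  · intro h0
    exact (h.down h0).2.2
  · intro h0
    exact h.up hTQ ⟨hsQ, fun h1 => absurd h1 (not_lt.2 Pool.Agent.K4H53.BSX.Q11.disc_lt.le), h0⟩

end Pool.Agent.Results.MP_1a91b9_nt.FormulaModTwoExtensions
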