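import Pool.Agent.K4H53.BSX.Q11
import Pool.Agent.K4H53.BSR.Alg2
import Pool.Agent.K4H53.BSR.Lmain4
import Pool.Agent.R425.P.Lt
import Pool.Agent.R425.P.Pr
import Pool.Agent.R425.P.Pc
import Pool.Agent.Y288.G.Perr
import Pool.Agent.Y288.G.Perc
import Pool.Agent.Y255.LT.Fin

/-!
# The Birch and Swinnerton-Dyer formula modulo 2 over abelian 2-extensions that are ramified at 2

`W` is the minimal equation of an elliptic curve `E` over `ℚ` with supersingular reduction at `2`, such that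
`a_q(E)` is odd for some odd prime `q` of good reduction, and such that the periods of the newform of `E`
are in an odd multiple of the period lattice of `E`.  `K ⊂ ℚ(ζ_(4 m))` is a number field of degree `2^n`, with
`m` odd, squarefree and prime to the discriminant `Δ`: these are all abelian extensions of `ℚ` of
2-power degree whose conductor is prime to `Δ` and not divisible by `8`.  The prime `2` may ramify in `K`
(with ramification index two, which is wild).  For `F = ℚ` and for `F = K` let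
`x(F) = L(E/F, 1) √|Δ_F| #E(F)_tors² / Ω`.  The formula of Birch and Swinnerton-Dyer modulo 2 says that
`x(F)` is rational with odd denominator, and that its numerator is odd if and only if the rank of `E(F)` is
zero, `Ш(E/F)[2^∞] = 0` and the Tamagawa numbers are odd.

Let `A` be the statement that `a_l` is odd for all odd primes `l` that divide the discriminant of `K`, and
that `K` is totally real if `Δ > 0`.  We prove

* `x(ℚ)` and `x(K)` have odd denominators, and `x(K)` is odd if and only if `x(ℚ)` is odd and `A` holds;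
* the equation is minimal over `K`, and the Tamagawa products over `ℚ` and `K` have the same parity;
* if `rank E(K) = 0` and `Ш(E/K)[2^∞] = 0` then `rank E(ℚ) = 0`, `Ш(E/ℚ)[2^∞] = 0` and `A` holds; the
  converse holds if the Tamagawa numbers over `ℚ` are odd.

So the formula modulo 2 over `ℚ` implies the formula modulo 2 over all such fields `K`; the converse holds
if `A` holds; and if `A` does not hold the formula holds over `K` without an assumption on `E` over `ℚ`.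

For `E = X_0(11)` the hypotheses are proved, also the formula modulo 2 over `ℚ`, so for this curve the
formula modulo 2 holds over all these fields `K` (with `m` prime to `22`), without any hypothesis.

In all earlier results of this kind the prime `2` was unramified in `K`.  The new points are the following.

* The points over the ramified quadratic extension `k' = k(i)` of an unramified extension `k` of `ℚ_2`, with
  group `{1, σ}`, where `E` has supersingular reduction.  By the filtration of the formal group, with the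
  addition law up to terms of the third order, every point of `E(k)` is a norm from `E(k')`, and every point
  `P` of `E(k')` with `P + σ P = 0` is `Q - σ Q`.  (Both are false over `k(√2)`.)
* So a locally trivial class of `E` over `K` that is invariant under the group of `K/ℚ` comes from a class
  over `ℚ` that is trivial at `2`, also if `K_v` is not `k(i)` but a subfield of index two of it.
* If `K` has a complex place and `Δ > 0` then the Selmer group of `2` over `K` is not zero, by a count of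
  units in the cubic field of the points of order two; no ramified prime is needed for this.
* The modular symbols with denominator `4 q`: the sum of all of them is `(a_2² - 2 a_2 - 1) ∏ (a_l - 2)`
  times the value at the centre, and `a_2` is even.
* The conductor-discriminant formula for the subfields of `ℚ(ζ_(4 m))`.
-/

set_option autoImplicit false

open NumberField NumberField.InfinitePlace IsDedekindDomain WeierstrassCurve MeasureTheory
open UpperHalfPlane MatrixGroups CongruenceSubgroup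

namespace Pool.Agent.Results.MP_1a91b9_nt.FormulaModTwoRamified

open scoped Classical

open Pool.Agent.TH841.NF.D (Sha)

/-- The curve given by the equation of `W` over the ring `R`. -/
abbrev base (W : WeierstrassCurve ℤ) (R : Type) [CommRing R] : WeierstrassCurve R :=
  W.map (Int.castRingHom R)

/-- The number of the affine points `(x, y)` over the ring `R`. -/
noncomputable def pts (W : WeierstrassCurve ℤ) (R : Type) [CommRing R] : ℕ :=
  Nat.card {P : R × R // (base W R).toAffine.Equation P.1 P.2}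

section

variable {K : Type} [Field K] [NumberField K]

/-- `a_v = N v + 1 - #W(k_v)`, the points over the residue field `k_v` counted with the point at
infinity. -/
noncomputable def a (W : WeierstrassCurve ℤ) (v : HeightOneSpectrum (𝓞 K)) : ℤ :=
  (Ideal.absNorm v.asIdeal : ℤ) - pts W (𝓞 K ⧸ v.asIdeal)

/-- The Euler factor of `L(W/K, s)` at `v` : `(1 - a_v N v^(-s) + N v^(1 - 2 s))⁻¹` if the
discriminant is a unit at `v`, and `(1 - a_v N v^(-s))⁻¹` otherwise. -/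
noncomputable def factor (W : WeierstrassCurve ℤ) (s : ℂ) (v : HeightOneSpectrum (𝓞 K)) : ℂ :=
  (1 - (a W v : ℂ) * (Ideal.absNorm v.asIdeal : ℂ) ^ (-s) +
    if ((W.Δ : ℤ) : 𝓞 K) ∈ v.asIdeal then 0 else (Ideal.absNorm v.asIdeal : ℂ) ^ (1 - 2 * s))⁻¹

/-- The equation is minimal at the finite place `v` of `K`: no change of variables over `K` that
keeps the coefficients integral at `v` decreases the valuation of the discriminant. -/
def MinimalAt (W : WeierstrassCurve ℤ) (v : HeightOneSpectrum (𝓞 K)) : Prop :=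
  ∀ C : VariableChange K, v.valuation K (C • base W K).a₁ ≤ 1 →
    v.valuation K (C • base W K).a₂ ≤ 1 → v.valuation K (C • base W K).a₃ ≤ 1 →
    v.valuation K (C • base W K).a₄ ≤ 1 → v.valuation K (C • base W K).a₆ ≤ 1 →
    v.valuation K (C • base W K).Δ ≤ v.valuation K (base W K).Δ

/-- `E⁰(K_v)`, the group of the points of `W` over the completion `K_v` with nonsingular reduction:
the points `(x, y)` where `x` is not integral, or one of the partial derivatives of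
`y² + a₁ x y + a₃ y - x³ - a₂ x² - a₄ x - a₆` is a unit at `(x, y)`, and the point at infinity. -/
noncomputable def nonsing (W : WeierstrassCurve ℤ) (v : HeightOneSpectrum (𝓞 K)) :
    AddSubgroup (base W (v.adicCompletion K)).toAffine.Point :=
  AddSubgroup.closure {P | ∀ x y h, P = Affine.Point.some x y h →
    1 < Valued.v x ∨ Valued.v (W.a₁ * y - (3 * x ^ 2 + 2 * W.a₂ * x + W.a₄)) = 1 ∨
      Valued.v (2 * y + W.a₁ * x + W.a₃) = 1}

/-- The Tamagawa number `c_v = [E(K_v) : E⁰(K_v)]` of a minimal equation. -/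
noncomputable def c (W : WeierstrassCurve ℤ) (v : HeightOneSpectrum (𝓞 K)) : ℕ :=
  (nonsing W v).index

end

section

variable (K : Type) [Field K] [NumberField K]

/-- The product of the Tamagawa numbers. -/
noncomputable def Tam (W : WeierstrassCurve ℤ) : ℕ := ∏ᶠ v : HeightOneSpectrum (𝓞 K), c W v

/-- The 2-primary part of the Tate-Shafarevich group over `K`. -/
def Sha2 (W : WeierstrassCurve ℤ) : Set (Sha (base W K)) := {x | ∃ n : ℕ, 2 ^ n • x = 0}

/-- The torsion subgroup of the group of the points over `K`. -/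
def tors (W : WeierstrassCurve ℤ) : Set (base W K).toAffine.Point := {P | ∃ n : ℕ, 0 < n ∧ n • P = 0}

/-- The rank of the group of the points over `K`. -/
noncomputable def rank (W : WeierstrassCurve ℤ) : ℕ := Module.finrank ℤ (base W K).toAffine.Point

end

/-- `4 x³ + b₂ x² + 2 b₄ x + b₆ = (2 y + a₁ x + a₃)²`, where `b₂ = a₁² + 4 a₂`,
`b₄ = 2 a₄ + a₁ a₃`, `b₆ = a₃² + 4 a₆`. -/
def cubic (W : WeierstrassCurve ℤ) {R : Type} [CommRing R] (x : R) : R :=
  4 * x ^ 3 + W.b₂ * x ^ 2 + 2 * W.b₄ * x + W.b₆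

/-- `∫_{W(ℝ)} |ω|` with `ω = dx / (2 y + a₁ x + a₃)`, as an integral over `x`: two real points lie
over each `x` with `cubic x > 0`. -/
noncomputable def realPeriod (W : WeierstrassCurve ℤ) : ℝ :=
  2 * ∫ x in {x : ℝ | 0 < cubic W x}, 1 / √(cubic W x)

/-- `2 ∫_{W(ℂ)} |ω ∧ ω̄|`, where `|ω ∧ ω̄| = du dv` in a local parameter `z = u + i v` with
`dz = ω`, as an integral over `x`: two points lie over a general `x`, and `|ω ∧ ω̄|` is the area
element of the plane of `x` divided by `|cubic x|`. -/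
noncomputable def complexPeriod (W : WeierstrassCurve ℤ) : ℝ := 2 * (2 * ∫ x : ℂ, 1 / ‖cubic W x‖)

/-- The global period of an equation that is minimal at all finite places. -/
noncomputable def Omega (K : Type) [Field K] [NumberField K] (W : WeierstrassCurve ℤ) : ℝ :=
  realPeriod W ^ nrRealPlaces K * complexPeriod W ^ nrComplexPlaces K

/-- `x` is the value `L(E/K, 1) √|Δ_K| (#E(K)_tors)² / Ω`, where `L` is the entire function given by
the Euler product of `W` over `K` for `Re s > 3/2`. -/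
def HasValue (K : Type) [Field K] [NumberField K] (W : WeierstrassCurve ℤ) (x : ℚ) : Prop :=
  ∃ L : ℂ → ℂ, Differentiable ℂ L ∧
    (∀ s : ℂ, 3 / 2 < s.re → HasProd (factor (K := K) W s) (L s)) ∧
    L 1 * √|(discr K : ℝ)| * (Nat.card (tors K W) : ℂ) ^ 2 = x * Omega K W

/-- **The formula of Birch and Swinnerton-Dyer modulo 2** for `W` over `K` (the equation being
minimal): the `L`-function is entire, `x = L(E/K, 1) √|Δ_K| (#E(K)_tors)² / Ω` is a rational number with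
odd denominator, and its numerator is odd if and only if the rank is zero, the 2-primary part of the
Tate-Shafarevich group is zero and the product of the Tamagawa numbers is odd.  (The conjecture says
that `x = #Ш Tam` if the rank is zero, and `x = 0` otherwise.) -/
def BSDModTwo (K : Type) [Field K] [NumberField K] (W : WeierstrassCurve ℤ) : Prop :=
  ∃ x : ℚ, HasValue K W x ∧ Odd x.den ∧
    (Odd x.num ↔ rank K W = 0 ∧ Sha2 K W = {0} ∧ Odd (Tam K W))

section modular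

variable {N : ℕ}

/-- The `n`-th coefficient of the cusp form `f = ∑ a_n q^n`. -/
noncomputable def co (f : CuspForm (Gamma0 N : Subgroup (GL (Fin 2) ℝ)) 2) (n : ℕ) : ℂ :=
  (qExpansion 1 f).coeff n

/-- `2 π i ∫_(i∞)^z f(w) dw = ∑ a_n / n e^(2 π i n z)`. -/
noncomputable def prim (f : CuspForm (Gamma0 N : Subgroup (GL (Fin 2) ℝ)) 2) (z : ℂ) : ℂ :=
  ∑' n : ℕ, co f n / n * Complex.exp (2 * Real.pi * Complex.I * n * z)

/-- The cusp form `f` of weight two for `Γ₀(N)` is the newform of `W`: it is a normalised eigenform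
of the Hecke operators and of the Fricke involution, with real coefficients that satisfy the bounds
of Hasse, `N` has the same prime divisors as the discriminant, and `a_p = p + 1 - #W(𝔽_p)`. -/
structure IsNewform (W : WeierstrassCurve ℤ) (N : ℕ)
    (f : CuspForm (Gamma0 N : Subgroup (GL (Fin 2) ℝ)) 2) : Prop where
  one : co f 1 = 1
  real : ∀ n, (co f n).im = 0
  mul : ∀ m n : ℕ, Nat.Coprime m n → co f (m * n) = co f m * co f n
  pow : ∀ p j : ℕ, p.Prime → co f (p ^ (j + 2)) = co f p * co f (p ^ (j + 1)) -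
      (if p ∣ N then 0 else (p : ℂ) * co f (p ^ j))
  good : ∀ p : ℕ, p.Prime → ¬ p ∣ N → ‖co f p‖ ≤ 2 * Real.sqrt p
  bad : ∀ p : ℕ, p.Prime → p ∣ N → ‖co f p‖ ≤ 1
  fricke : ∃ w : ℝ, (w = 1 ∨ w = -1) ∧ ∀ τ τ' : ℍ, (τ' : ℂ) * ((N : ℂ) * (τ : ℂ)) = -1 →
    f τ' = -(w : ℂ) * (N : ℂ) * (τ : ℂ) ^ 2 * f τ
  level : ∀ p : ℕ, p.Prime → (p ∣ N ↔ (p : ℤ) ∣ W.Δ)
  coef : ∀ p : ℕ, p.Prime → co f p = (p : ℂ) - (pts W (ZMod p) : ℂ)

end modular

section proof

open Pool.Agent.Y702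

variable {N : ℕ} [NeZero N]

omit [NeZero N] in
lemma isForm {W : WeierstrassCurve ℤ} {f : CuspForm (Gamma0 N : Subgroup (GL (Fin 2) ℝ)) 2}
    (h : IsNewform W N f) : G.IsForm W N f :=
  ⟨h.one, h.real, h.mul, h.pow, h.good, h.bad, h.fricke, h.level, h.coef⟩

lemma c_eq {K : Type} [Field K] [NumberField K] (W : WeierstrassCurve ℤ)
    (v : HeightOneSpectrum (𝓞 K)) : c W v = Pool.Agent.R425.G.cv W v := rfl

lemma cubic_eq (W : WeierstrassCurve ℤ) {R : Type} [CommRing R] (x : R) :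
    cubic W x = G.cubic W x := rfl

lemma sha_iff {K : Type} [Field K] [NumberField K] (W : WeierstrassCurve ℤ) :
    (∀ s : Sha (base W K), 2 • s = 0 → s = 0) ↔ Sha2 K W = {0} := by
  constructor
  · intro h
    have key : ∀ (j : ℕ) (x : Sha (base W K)), 2 ^ j • x = 0 → x = 0 := by
      intro j
      induction j with
      | zero => intro x hx; rw [pow_zero, one_nsmul] at hx; exact hx
      | succ j ih =>
        intro x hx
        rw [pow_succ, mul_nsmul] at hx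
        exact ih x (h _ hx)
    ext x
    constructor
    · rintro ⟨k, hk⟩
      exact key k x hk
    · rintro rfl
      exact ⟨0, nsmul_zero _⟩
  · intro h s hs
    have h1 : s ∈ Sha2 K W := ⟨1, by rw [pow_one]; exact hs⟩
    rw [h] at h1
    exact h1

/-- the two forms of the algebraic side -/
lemma side_iff {K : Type} [Field K] [NumberField K] (W : WeierstrassCurve ℤ) (hW : W.Δ ≠ 0) :
    (rank K W = 0 ∧ Sha2 K W = {0}) ↔ (Finite (base W K).toAffine.Point ∧
      ∀ s : Sha (base W K), 2 • s = 0 → s = 0) := by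
  rw [sha_iff]
  have h : rank K W = 0 ↔ Finite (base W K).toAffine.Point := Pool.Agent.R425.G.rank_iff W hW
  rw [h]

/-- the value is unique -/
lemma value_uniq {K : Type} [Field K] [NumberField K] (W : WeierstrassCurve ℤ)
    (hO : Omega K W ≠ 0) {x y : ℚ} (hx : HasValue K W x) (hy : HasValue K W y) : x = y := by
  obtain ⟨L1, d1, p1, e1⟩ := hx
  obtain ⟨L2, d2, p2, e2⟩ := hy
  have h : L1 = L2 := Pool.Agent.R425.G.L_uniq (W := W) (K := K) d1 d2 p1 p2
  rw [h, e2] at e1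
  have h1 : (Omega K W : ℂ) ≠ 0 := by exact_mod_cast hO
  have h2 := mul_right_cancel₀ h1 e1
  exact_mod_cast h2.symm

/-- the value in terms of integers -/
lemma value_of {K : Type} [Field K] [NumberField K] (W : WeierstrassCurve ℤ) {H : ℂ → ℂ}
    (hHd : Differentiable ℂ H)
    (hHp : ∀ s : ℂ, 3 / 2 < s.re → HasProd (factor (K := K) W s) (H s)) {r : ℝ} (hr : H 1 = r)
    {D M' : ℤ} (hD : Odd D) (hT : Odd (Nat.card (tors K W)))
    (hval : |(D : ℝ)| * (|r| * √|(discr K : ℝ)|) = |(M' : ℝ)| * Omega K W) :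
    ∃ x : ℚ, HasValue K W x ∧ Odd x.den ∧ (Odd x.num ↔ Odd M') := by
  obtain ⟨ε, hε, hεr⟩ : ∃ ε : ℤ, Odd ε ∧ r = ε * |r| := by
    rcases le_total 0 r with h | h
    · exact ⟨1, odd_one, by rw [abs_of_nonneg h]; push_cast; ring⟩
    · exact ⟨-1, odd_one.neg, by rw [abs_of_nonpos h]; push_cast; ring⟩
  have hDo' : Odd |D| := by
    rcases abs_choice D with h | h
    · rw [h]; exact hD
    · rw [h]; exact hD.neg
  have hM : Odd |M'| ↔ Odd M' := by
    rcases abs_choice M' with h | h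
    · rw [h]
    · rw [h]
      exact ⟨fun h1 => by simpa using h1.neg, fun h1 => h1.neg⟩
  have hD0 : (|D| : ℤ) ≠ 0 := by
    intro h
    rw [h] at hDo'
    exact absurd hDo' (by decide)
  have hD0' : ((|D| : ℤ) : ℝ) ≠ 0 := by exact_mod_cast hD0
  obtain ⟨h1, h2⟩ := Pool.Agent.R425.G.odd_frac (ε * |M'| * (Nat.card (tors K W) : ℤ) ^ 2) |D| hDo'
  have hreal : r * √|(discr K : ℝ)| * (Nat.card (tors K W) : ℝ) ^ 2 =
      ((ε * |M'| * (Nat.card (tors K W) : ℤ) ^ 2 : ℤ) : ℝ) / ((|D| : ℤ) : ℝ) * Omega K W := by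
    rw [div_mul_eq_mul_div, eq_div_iff hD0', hεr]
    push_cast
    linear_combination (ε : ℝ) * (Nat.card (tors K W) : ℝ) ^ 2 * hval
  refine ⟨((ε * |M'| * (Nat.card (tors K W) : ℤ) ^ 2 : ℤ) : ℚ) / (|D| : ℤ), ⟨H, hHd, hHp, ?_⟩,
    h1, ?_⟩
  · rw [hr]
    have h5 := congrArg (fun y : ℝ => (y : ℂ)) hreal
    simp only [Complex.ofReal_mul, Complex.ofReal_pow, Complex.ofReal_natCast, Complex.ofReal_div,
      Complex.ofReal_intCast] at h5
    rw [h5, Rat.cast_div, Rat.cast_intCast, Rat.cast_intCast]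
  · rw [h2, Int.odd_mul, Int.odd_mul, hM]
    have h3 : Odd ((Nat.card (tors K W) : ℤ) ^ 2) := Odd.pow (by exact_mod_cast hT)
    exact ⟨fun h => h.1.2, fun h => ⟨⟨hε, h⟩, h3⟩⟩

/-- the values, positive discriminant -/
lemma values_pos {N : ℕ} [NeZero N] (W : WeierstrassCurve ℤ) (hΔ : 0 < W.Δ)
    (f : CuspForm (Gamma0 N : Subgroup (GL (Fin 2) ℝ)) 2) (hf : IsNewform W N f)
    (Λ : PeriodPair) (hg₂ : Λ.g₂ = (W.c₄ : ℂ) / 12) (hg₃ : Λ.g₃ = (W.c₆ : ℂ) / 216)
    (hman : ∃ c : ℤ, Odd c ∧ ∀ γ ∈ Gamma0 N, ∀ z : ℍ,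
      (c : ℂ) * (prim f ((γ • z : ℍ) : ℂ) - prim f (z : ℂ)) ∈ Λ.lattice)
    (q : ℕ) (hq : q.Prime) (hqΔ : ¬ (q : ℤ) ∣ 2 * W.Δ) (hqo : Odd ((q : ℤ) - pts W (ZMod q)))
    (hΔ2 : ¬ (2 : ℤ) ∣ W.Δ) (hss : Even ((2 : ℤ) - pts W (ZMod 2)))
    (m : ℕ) [NeZero m] (hsq : Squarefree m)
    (hm : ∀ l : ℕ, l.Prime → l ∣ m → ¬ (l : ℤ) ∣ 2 * W.Δ)
    (M : Type) [Field M] [NumberField M] [IsCyclotomicExtension {4 * m} ℚ M]
    (K : IntermediateField ℚ M) (n : ℕ) (hn : Module.finrank ℚ K = 2 ^ n)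
    (htK : Odd (Nat.card (tors K W))) (htQ : Odd (Nat.card (tors ℚ W))) :
    Omega ℚ W ≠ 0 ∧ Omega K W ≠ 0 ∧
    ∃ x₀ x : ℚ, HasValue ℚ W x₀ ∧ HasValue K W x ∧ Odd x₀.den ∧ Odd x.den ∧
      (Odd x.num ↔ Odd x₀.num ∧ (nrComplexPlaces K = 0 ∧
        ∀ l : ℕ, l.Prime → (l : ℤ) ∣ discr K → l ≠ 2 → Odd ((l : ℤ) - pts W (ZMod l)))) := by
  have hfI := isForm hf
  -- the lattice
  obtain ⟨Op, Om, hOp, hOm, hlat⟩ := Pool.Agent.R425.P.latP Λ ((W.c₄ : ℝ) / 12)
    ((W.c₆ : ℝ) / 216)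
    (by rw [hg₂]; push_cast; rfl) (by rw [hg₃]; push_cast; rfl) (by
      have h1 : (1728 : ℝ) * W.Δ = (W.c₄ : ℝ) ^ 3 - (W.c₆ : ℝ) ^ 2 := by
        exact_mod_cast congrArg (fun x : ℤ => (x : ℝ)) W.c_relation
      have h2 : 0 < (W.Δ : ℝ) := by exact_mod_cast hΔ
      have h3 : ((W.c₄ : ℝ) / 12) ^ 3 - 27 * ((W.c₆ : ℝ) / 216) ^ 2 = (W.Δ : ℝ) := by
        linear_combination (-1 / 1728 : ℝ) * h1
      rw [h3]
      exact h2)
  have hreal : realPeriod W = 2 * Op := by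
    unfold realPeriod
    simp_rw [cubic_eq]
    rw [Pool.Agent.R425.P.s_perrP W Λ Op Om hOp hOm hg₂ hg₃ hlat]
  have hcomp : complexPeriod W = 2 * Op * Om := by
    unfold complexPeriod
    simp_rw [cubic_eq]
    rw [Pool.Agent.R425.P.s_percP W Λ Op Om hOp hOm hg₂ hg₃ hlat]
    ring
  have hOmega : ∀ (F : Type) [Field F] [NumberField F],
      Omega F W = (2 * Op) ^ nrRealPlaces F * (2 * Op * Om) ^ nrComplexPlaces F := by
    intro F _ _
    unfold Omega
    rw [hreal, hcomp]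
  have hOmega0 : ∀ (F : Type) [Field F] [NumberField F], Omega F W ≠ 0 := by
    intro F _ _
    rw [hOmega]
    positivity
  have hOQ : Omega ℚ W = 2 * Op := by
    rw [hOmega, nrRealPlaces_eq_one_of_finrank_eq_one (Module.finrank_self ℚ),
      nrComplexPlaces_eq_zero_of_finrank_eq_one (Module.finrank_self ℚ), pow_one, pow_zero, mul_one]
  -- the periods of the form
  obtain ⟨cc, hcc, hman'⟩ := hman
  have hqN : ¬ q ∣ N := by
    intro h
    exact hqΔ (((hfI.level q hq).1 h).mul_left 2)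
  have hq2 : q ≠ 2 := by
    rintro rfl
    exact hqΔ (Dvd.intro _ rfl)
  obtain ⟨s, t, hPer⟩ := Pool.Agent.R425.P.exists_perP hOp hOm hlat hcc (f := f) (by
    rintro x ⟨γ, rfl⟩
    have h1 := Pool.Agent.Y18.BSD.per_spec f (Additive.toMul γ) UpperHalfPlane.I
    have h2 := hman' _ (Additive.toMul γ).2 UpperHalfPlane.I
    have h3 : prim f ((((Additive.toMul γ : Gamma0 N) : SL(2, ℤ)) • UpperHalfPlane.I : ℍ) : ℂ) -
        prim f (UpperHalfPlane.I : ℂ) = Pool.Agent.Y18.BSD.per f (Additive.toMul γ) := by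
      have h4 : prim f ((((Additive.toMul γ : Gamma0 N) : SL(2, ℤ)) • UpperHalfPlane.I : ℍ) : ℂ) =
          prim f (UpperHalfPlane.I : ℂ) + Pool.Agent.Y18.BSD.per f (Additive.toMul γ) := h1
      rw [h4]
      ring
    rw [h3] at h2
    exact h2) hfI hq hqN hq2 hqo
  have hmodd : Odd m := by
    rw [← Nat.not_even_iff_odd, even_iff_two_dvd]
    intro h
    exact hm 2 Nat.prime_two h (Dvd.intro _ rfl)
  have hcoN : Nat.Coprime (4 * m) N := by
    rw [Nat.coprime_iff_gcd_eq_one]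
    by_contra h
    obtain ⟨l, hl, hl2⟩ := Nat.exists_prime_and_dvd h
    have h3 := (hfI.level l hl).1 (hl2.trans (Nat.gcd_dvd_right _ _))
    rcases (Nat.Prime.dvd_mul hl).1 (hl2.trans (Nat.gcd_dvd_left _ _)) with h4 | h4
    · have h5 : l = 2 := by
        have h6 : l ∣ 2 ^ 2 := by norm_num; exact h4
        exact (Nat.prime_dvd_prime_iff_eq hl Nat.prime_two).1 (hl.dvd_of_dvd_pow h6)
      rw [h5] at h3
      exact hΔ2 (by exact_mod_cast h3)
    · exact (hm l hl h4) (Dvd.dvd.mul_left h3 2)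
  have : NeZero (4 * m) := ⟨mul_ne_zero (by norm_num) (NeZero.ne m)⟩
  obtain ⟨H, hHd, hHp, him, D, M', hDo, hMo, hval⟩ := Pool.Agent.K4H53.BSR.l_mainP4
    hΔ.ne' hfI hPer hq hqN hq2 hqo hss m (4 * m) hsq hmodd rfl hcoN M K n hn
  -- the value over `ℚ`
  obtain ⟨x₀, hx₀, hx₀d, hx₀n⟩ : ∃ x₀ : ℚ, HasValue ℚ W x₀ ∧ Odd x₀.den ∧
      (Odd x₀.num ↔ Odd s) := by
    obtain ⟨L₀, hL1, hL2, hL3⟩ := Pool.Agent.R425.G.exists_LQ hfI
    refine value_of W hL1 hL2 (r := (s : ℝ) / t * (2 * Op)) ?_ hPer.t_odd htQ ?_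
    · have ht0 : (t : ℂ) ≠ 0 := by
        have h3 := hPer.t_odd
        have h4 : t ≠ 0 := by
          rintro rfl
          exact absurd h3 (by decide)
        exact_mod_cast h4
      have h3 : L₀ 1 = (s : ℂ) / t * (2 * Op) := by
        rw [hL3, div_mul_eq_mul_div, eq_div_iff ht0, mul_comm, hPer.val]
      rw [h3]
      push_cast
      ring
    · have ht0 : (t : ℝ) ≠ 0 := by
        have h3 := hPer.t_odd
        have h4 : t ≠ 0 := by
          rintro rfl
          exact absurd h3 (by decide)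
        exact_mod_cast h4
      rw [hOQ]
      simp only [Rat.numberField_discr, Int.cast_one, abs_one, Real.sqrt_one, mul_one]
      rw [abs_mul, abs_div, abs_of_pos (show (0 : ℝ) < 2 * Op by positivity), ← mul_assoc,
        mul_div_cancel₀ _ (abs_ne_zero.2 ht0)]
  -- the value over `K`
  obtain ⟨x, hx, hxd, hxn⟩ : ∃ x : ℚ, HasValue K W x ∧ Odd x.den ∧ (Odd x.num ↔ Odd M') := by
    have hre : H 1 = ((H 1).re : ℂ) := Complex.ext rfl (by rw [him]; rfl)
    have hnorm : ‖H 1‖ = |(H 1).re| := by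
      rw [hre, Complex.norm_real, Real.norm_eq_abs, Complex.ofReal_re]
    refine value_of W hHd hHp hre hDo htK ?_
    rw [hOmega K, ← hval, hnorm]
  refine ⟨hOmega0 ℚ, hOmega0 K, x₀, x, hx₀, hx, hx₀d, hxd, ?_⟩
  rw [hxn, hMo, hx₀n]
  exact Iff.rfl

/-- the values, negative discriminant -/
lemma values_neg {N : ℕ} [NeZero N] (W : WeierstrassCurve ℤ) (hΔ : W.Δ < 0)
    (f : CuspForm (Gamma0 N : Subgroup (GL (Fin 2) ℝ)) 2) (hf : IsNewform W N f)
    (Λ : PeriodPair) (hg₂ : Λ.g₂ = (W.c₄ : ℂ) / 12) (hg₃ : Λ.g₃ = (W.c₆ : ℂ) / 216)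
    (hman : ∃ c : ℤ, Odd c ∧ ∀ γ ∈ Gamma0 N, ∀ z : ℍ,
      (c : ℂ) * (prim f ((γ • z : ℍ) : ℂ) - prim f (z : ℂ)) ∈ Λ.lattice)
    (q : ℕ) (hq : q.Prime) (hqΔ : ¬ (q : ℤ) ∣ 2 * W.Δ) (hqo : Odd ((q : ℤ) - pts W (ZMod q)))
    (hΔ2 : ¬ (2 : ℤ) ∣ W.Δ) (hss : Even ((2 : ℤ) - pts W (ZMod 2)))
    (m : ℕ) [NeZero m] (hsq : Squarefree m)
    (hm : ∀ l : ℕ, l.Prime → l ∣ m → ¬ (l : ℤ) ∣ 2 * W.Δ)
    (M : Type) [Field M] [NumberField M] [IsCyclotomicExtension {4 * m} ℚ M]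
    (K : IntermediateField ℚ M) (n : ℕ) (hn : Module.finrank ℚ K = 2 ^ n)
    (htK : Odd (Nat.card (tors K W))) (htQ : Odd (Nat.card (tors ℚ W))) :
    Omega ℚ W ≠ 0 ∧ Omega K W ≠ 0 ∧
    ∃ x₀ x : ℚ, HasValue ℚ W x₀ ∧ HasValue K W x ∧ Odd x₀.den ∧ Odd x.den ∧
      (Odd x.num ↔ Odd x₀.num ∧
        ∀ l : ℕ, l.Prime → (l : ℤ) ∣ discr K → l ≠ 2 → Odd ((l : ℤ) - pts W (ZMod l))) := by
  have hfI := isForm hf
  -- the lattice
  obtain ⟨Op, Om, hOp, hOm, hlat⟩ := Pool.Agent.Y255.LT.s_lat Λ ((W.c₄ : ℝ) / 12)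
    ((W.c₆ : ℝ) / 216)
    (by rw [hg₂]; push_cast; rfl) (by rw [hg₃]; push_cast; rfl) (by
      have h1 : (1728 : ℝ) * W.Δ = (W.c₄ : ℝ) ^ 3 - (W.c₆ : ℝ) ^ 2 := by
        exact_mod_cast congrArg (fun x : ℤ => (x : ℝ)) W.c_relation
      have h2 : (W.Δ : ℝ) < 0 := by exact_mod_cast hΔ
      have h3 : ((W.c₄ : ℝ) / 12) ^ 3 - 27 * ((W.c₆ : ℝ) / 216) ^ 2 = (W.Δ : ℝ) := by
        linear_combination (-1 / 1728 : ℝ) * h1
      rw [h3]
      exact h2)
  have hreal : realPeriod W = 2 * Op := by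
    unfold realPeriod
    simp_rw [cubic_eq]
    rw [Pool.Agent.Y288.G.s_perr W hΔ Λ Op Om hOp hOm hg₂ hg₃ hlat]
  have hcomp : complexPeriod W = 4 * Op * Om := by
    unfold complexPeriod
    simp_rw [cubic_eq]
    rw [Pool.Agent.Y288.G.s_perc W hΔ Λ Op Om hOp hOm hg₂ hg₃ hlat]
    ring
  have hOmega : ∀ (F : Type) [Field F] [NumberField F],
      Omega F W = (2 * Op) ^ nrRealPlaces F * (4 * Op * Om) ^ nrComplexPlaces F := by
    intro F _ _
    unfold Omega
    rw [hreal, hcomp]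
  have hOmega0 : ∀ (F : Type) [Field F] [NumberField F], Omega F W ≠ 0 := by
    intro F _ _
    rw [hOmega]
    positivity
  have hOQ : Omega ℚ W = 2 * Op := by
    rw [hOmega, nrRealPlaces_eq_one_of_finrank_eq_one (Module.finrank_self ℚ),
      nrComplexPlaces_eq_zero_of_finrank_eq_one (Module.finrank_self ℚ), pow_one, pow_zero, mul_one]
  -- the periods of the form
  obtain ⟨cc, hcc, hman'⟩ := hman
  have hqN : ¬ q ∣ N := by
    intro h
    exact hqΔ (((hfI.level q hq).1 h).mul_left 2)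
  have hq2 : q ≠ 2 := by
    rintro rfl
    exact hqΔ (Dvd.intro _ rfl)
  obtain ⟨s, t, hPer⟩ := Pool.Agent.R425.G.exists_perA hOp hOm hlat hcc (f := f) (by
    rintro x ⟨γ, rfl⟩
    have h1 := Pool.Agent.Y18.BSD.per_spec f (Additive.toMul γ) UpperHalfPlane.I
    have h2 := hman' _ (Additive.toMul γ).2 UpperHalfPlane.I
    have h3 : prim f ((((Additive.toMul γ : Gamma0 N) : SL(2, ℤ)) • UpperHalfPlane.I : ℍ) : ℂ) -
        prim f (UpperHalfPlane.I : ℂ) = Pool.Agent.Y18.BSD.per f (Additive.toMul γ) := by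
      have h4 : prim f ((((Additive.toMul γ : Gamma0 N) : SL(2, ℤ)) • UpperHalfPlane.I : ℍ) : ℂ) =
          prim f (UpperHalfPlane.I : ℂ) + Pool.Agent.Y18.BSD.per f (Additive.toMul γ) := h1
      rw [h4]
      ring
    rw [h3] at h2
    exact h2) hfI hq hqN hq2 hqo
  have hmodd : Odd m := by
    rw [← Nat.not_even_iff_odd, even_iff_two_dvd]
    intro h
    exact hm 2 Nat.prime_two h (Dvd.intro _ rfl)
  have hcoN : Nat.Coprime (4 * m) N := by
    rw [Nat.coprime_iff_gcd_eq_one]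
    by_contra h
    obtain ⟨l, hl, hl2⟩ := Nat.exists_prime_and_dvd h
    have h3 := (hfI.level l hl).1 (hl2.trans (Nat.gcd_dvd_right _ _))
    rcases (Nat.Prime.dvd_mul hl).1 (hl2.trans (Nat.gcd_dvd_left _ _)) with h4 | h4
    · have h5 : l = 2 := by
        have h6 : l ∣ 2 ^ 2 := by norm_num; exact h4
        exact (Nat.prime_dvd_prime_iff_eq hl Nat.prime_two).1 (hl.dvd_of_dvd_pow h6)
      rw [h5] at h3
      exact hΔ2 (by exact_mod_cast h3)
    · exact (hm l hl h4) (Dvd.dvd.mul_left h3 2)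
  have : NeZero (4 * m) := ⟨mul_ne_zero (by norm_num) (NeZero.ne m)⟩
  obtain ⟨H, hHd, hHp, him, D, M', hDo, hMo, hval⟩ := Pool.Agent.K4H53.BSR.l_mainA4
    hΔ.ne hfI hPer hq hqN hq2 hqo hss m (4 * m) hsq hmodd rfl hcoN M K n hn
  -- the value over `ℚ`
  obtain ⟨x₀, hx₀, hx₀d, hx₀n⟩ : ∃ x₀ : ℚ, HasValue ℚ W x₀ ∧ Odd x₀.den ∧
      (Odd x₀.num ↔ Odd s) := by
    obtain ⟨L₀, hL1, hL2, hL3⟩ := Pool.Agent.R425.G.exists_LQ hfI
    refine value_of W hL1 hL2 (r := (s : ℝ) / t * (2 * Op)) ?_ hPer.t_odd htQ ?_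
    · have ht0 : (t : ℂ) ≠ 0 := by
        have h3 := hPer.t_odd
        have h4 : t ≠ 0 := by
          rintro rfl
          exact absurd h3 (by decide)
        exact_mod_cast h4
      have h3 : L₀ 1 = (s : ℂ) / t * (2 * Op) := by
        rw [hL3, div_mul_eq_mul_div, eq_div_iff ht0, mul_comm, hPer.val]
      rw [h3]
      push_cast
      ring
    · have ht0 : (t : ℝ) ≠ 0 := by
        have h3 := hPer.t_odd
        have h4 : t ≠ 0 := by
          rintro rfl
          exact absurd h3 (by decide)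
        exact_mod_cast h4
      rw [hOQ]
      simp only [Rat.numberField_discr, Int.cast_one, abs_one, Real.sqrt_one, mul_one]
      rw [abs_mul, abs_div, abs_of_pos (show (0 : ℝ) < 2 * Op by positivity), ← mul_assoc,
        mul_div_cancel₀ _ (abs_ne_zero.2 ht0)]
  -- the value over `K`
  obtain ⟨x, hx, hxd, hxn⟩ : ∃ x : ℚ, HasValue K W x ∧ Odd x.den ∧ (Odd x.num ↔ Odd M') := by
    have hre : H 1 = ((H 1).re : ℂ) := Complex.ext rfl (by rw [him]; rfl)
    have hnorm : ‖H 1‖ = |(H 1).re| := by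
      rw [hre, Complex.norm_real, Real.norm_eq_abs, Complex.ofReal_re]
    refine value_of W hHd hHp hre hDo htK ?_
    rw [hOmega K, ← hval, hnorm]
  refine ⟨hOmega0 ℚ, hOmega0 K, x₀, x, hx₀, hx, hx₀d, hxd, ?_⟩
  rw [hxn, hMo, hx₀n]
  exact Iff.rfl

end proof

/-- The general statement. Let `W` be a Weierstrass equation with integral coefficients and discriminant
`Δ ≠ 0`, minimal at all primes, with supersingular reduction at two: `Δ` is odd and `a_2` is even; let `f` be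
the newform of `W`, of a level `N` with the same prime divisors as `Δ`; let `Λ` be the period lattice of the
differential `dx / (2 y + a₁ x + a₃)` of `W` (the lattice with `g₂ = c₄ / 12`, `g₃ = c₆ / 216`), and assume
that `c` times the periods of `2 π i f(z) dz` on `Γ₀(N)` are in `Λ` for an odd `c` (the Manin constant is
odd).  Assume that `a_q` is odd for some prime `q` that does not divide `2 Δ`.  Let `m` be squarefree and
prime to `2 Δ`, `M` the `4 m`-th cyclotomic field, `K` a subfield of degree `2^n`.  Let `A` be the statement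
that `a_l` is odd for all odd primes `l` that divide the discriminant of `K`, and that `K` is totally real if
`Δ > 0`. -/
theorem general {N : ℕ} [NeZero N] (W : WeierstrassCurve ℤ) (hΔ : W.Δ ≠ 0)
    (hmin : ∀ p : HeightOneSpectrum (𝓞 ℚ), MinimalAt W p)
    (f : CuspForm (Gamma0 N : Subgroup (GL (Fin 2) ℝ)) 2) (hf : IsNewform W N f)
    (Λ : PeriodPair) (hg₂ : Λ.g₂ = (W.c₄ : ℂ) / 12) (hg₃ : Λ.g₃ = (W.c₆ : ℂ) / 216)
    (hman : ∃ c : ℤ, Odd c ∧ ∀ γ ∈ Gamma0 N, ∀ z : ℍ,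
      (c : ℂ) * (prim f ((γ • z : ℍ) : ℂ) - prim f (z : ℂ)) ∈ Λ.lattice)
    (q : ℕ) (hq : q.Prime) (hqΔ : ¬ (q : ℤ) ∣ 2 * W.Δ) (hqo : Odd ((q : ℤ) - pts W (ZMod q)))
    (hΔ2 : ¬ (2 : ℤ) ∣ W.Δ) (hss : Even ((2 : ℤ) - pts W (ZMod 2)))
    (m : ℕ) [NeZero m] (hsq : Squarefree m)
    (hm : ∀ l : ℕ, l.Prime → l ∣ m → ¬ (l : ℤ) ∣ 2 * W.Δ)
    (M : Type) [Field M] [NumberField M] [IsCyclotomicExtension {4 * m} ℚ M]
    (K : IntermediateField ℚ M) (n : ℕ) (hn : Module.finrank ℚ K = 2 ^ n)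
    (A : Prop) (hA : A ↔ (0 < W.Δ → IsTotallyReal K) ∧
      ∀ l : ℕ, l.Prime → (l : ℤ) ∣ discr K → l ≠ 2 → Odd ((l : ℤ) - pts W (ZMod l))) :
    ((∀ v : HeightOneSpectrum (𝓞 K), MinimalAt W v) ∧
      {v : HeightOneSpectrum (𝓞 K) | c W v ≠ 1}.Finite ∧
      {p : HeightOneSpectrum (𝓞 ℚ) | c W p ≠ 1}.Finite ∧
      Odd (Nat.card (tors K W)) ∧ Odd (Nat.card (tors ℚ W)) ∧ (Odd (Tam K W) ↔ Odd (Tam ℚ W))) ∧
    (∃ x₀ x : ℚ, HasValue ℚ W x₀ ∧ HasValue K W x ∧ Odd x₀.den ∧ Odd x.den ∧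
      (Odd x.num ↔ Odd x₀.num ∧ A)) ∧
    ((rank K W = 0 ∧ Sha2 K W = {0}) → (rank ℚ W = 0 ∧ Sha2 ℚ W = {0}) ∧ A) ∧
    (Odd (Tam ℚ W) → (rank ℚ W = 0 ∧ Sha2 ℚ W = {0}) ∧ A → (rank K W = 0 ∧ Sha2 K W = {0})) ∧
    (BSDModTwo ℚ W → BSDModTwo K W) ∧
    (A → BSDModTwo K W → BSDModTwo ℚ W) ∧
    (¬ A → BSDModTwo K W) := by
  have hreal_iff : IsTotallyReal K ↔ nrComplexPlaces K = 0 := by
    rw [nrComplexPlaces, Fintype.card_eq_zero_iff]
    constructor
    · intro h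
      exact ⟨fun ⟨w, hw⟩ => not_isReal_iff_isComplex.2 hw (h.isReal w)⟩
    · intro h
      refine ⟨fun v => ?_⟩
      by_contra hv
      exact h.false ⟨v, not_isReal_iff_isComplex.1 hv⟩
  have hA2 : A ↔ Pool.Agent.K4H53.BSR.CondB W K := by
    rw [hA, hreal_iff]
    exact ⟨fun h => ⟨h.1, fun l hl hl2 hld => h.2 l hl hld hl2⟩,
      fun h => ⟨h.1, fun l hl hld hl2 => h.2 l hl hl2 hld⟩⟩
  have : NeZero (4 * m) := ⟨mul_ne_zero (by norm_num) (NeZero.ne m)⟩
  have hmodd : Odd m := by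
    rw [← Nat.not_even_iff_odd, even_iff_two_dvd]
    intro h
    exact hm 2 Nat.prime_two h (Dvd.intro _ rfl)
  have ha1 : Even W.a₁ := Pool.Agent.K4H53.BSR.a1_even hΔ2 hss
  have h4m : ∀ l : ℕ, l.Prime → l ≠ 2 → ¬ l ∣ m → ¬ l ∣ 4 * m := by
    intro l hl hl2 hlm h
    rcases (Nat.Prime.dvd_mul hl).1 h with h4 | h4
    · have h6 : l ∣ 2 ^ 2 := by norm_num; exact h4
      exact hl2 ((Nat.prime_dvd_prime_iff_eq hl Nat.prime_two).1 (hl.dvd_of_dvd_pow h6))
    · exact hlm h4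
  have hgal : IsGalois ℚ K := Pool.Agent.Y702.L.gal_F (4 * m) M K
  have hfI := isForm hf
  have hunr : ∀ (p : ℕ), p.Prime → p ≠ 2 → ¬ p ∣ m → ∀ v : HeightOneSpectrum (𝓞 K),
      (p : 𝓞 K) ∈ v.asIdeal → v.valuation K (p : K) = WithZero.exp (-1 : ℤ) :=
    fun p hp hp2 hpm v hv => Pool.Agent.Y702.Fn.unr (4 * m) M K hp (h4m p hp hp2 hpm) v hv
  have hnr : ∀ x : ℚ, Pool.Agent.TH115.GD.cub (Pool.Agent.Y702.G.sh W) x ≠ 0 :=
    Pool.Agent.R425.G.no_root_Q W hq hqΔ hqo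
  have hnrK := Pool.Agent.Y702.G.no_root (Pool.Agent.Y702.G.sh W) hnr K n hn
  have hdisc : ∀ l : ℕ, l.Prime → l ≠ 2 → (l : ℤ) ∣ discr K → ¬ (l : ℤ) ∣ 2 * W.Δ := by
    intro l hl hl2 hld
    have hlm : l ∣ m := by
      by_contra hcon
      exact Pool.Agent.R425.not_disc K hl (fun v hv => hunr l hl hl2 hcon v hv) hld
    exact hm l hl hlm
  have htK : Odd (Nat.card (tors K W)) := Pool.Agent.R425.G.tors_odd W hΔ hnrK
  have htQ : Odd (Nat.card (tors ℚ W)) := Pool.Agent.R425.G.tors_odd W hΔ hnr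
  -- the places
  have hbelow : ∀ v : HeightOneSpectrum (𝓞 K), ((W.Δ : ℤ) : 𝓞 K) ∈ v.asIdeal →
      (∀ x : ℚ, v.valuation K (algebraMap ℚ K x) = (v.under (𝓞 ℚ)).valuation ℚ x) := by
    intro v hv
    obtain ⟨q, hq, hqv⟩ := Pool.Agent.R425.G.exists_prime_mem v
    have h5 : (q : ℤ) ∣ W.Δ := Pool.Agent.R425.G.not_both hq hqv hv
    have hq2 : q ≠ 2 := by
      rintro rfl
      exact hΔ2 (by exact_mod_cast h5)
    have hqm : ¬ q ∣ m := fun h => (hm _ hq h) (h5.mul_left 2)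
    exact Pool.Agent.Y702.G.val_eq v _ rfl q (hunr _ hq hq2 hqm v hqv)
  have hTam : Odd (Tam K W) ↔ Odd (Tam ℚ W) :=
    Pool.Agent.K4H53.BSR.tam_iff4 W hΔ hn hbelow
  have hminK : ∀ v : HeightOneSpectrum (𝓞 K), MinimalAt W v := by
    intro v
    by_cases hv : ((W.Δ : ℤ) : 𝓞 K) ∈ v.asIdeal
    · exact Pool.Agent.K4H53.BSD.min_up hΔ hn (hbelow v hv) (hmin _)
    · intro C h1 h2 h3 h4 h6
      have e : (base W K).Δ = (W.Δ : K) := by
        rw [WeierstrassCurve.map_Δ]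
        simp
      rw [e, Pool.Agent.R425.G.unit_of W v hv]
      exact Pool.Agent.Y702.Fn.disc_le v _ h1 h2 h3 h4 h6
  -- the values
  obtain ⟨hO0, hOK, x₀, x, hx₀, hx, hx₀d, hxd, hxx⟩ : Omega ℚ W ≠ 0 ∧ Omega K W ≠ 0 ∧
      ∃ x₀ x : ℚ, HasValue ℚ W x₀ ∧ HasValue K W x ∧ Odd x₀.den ∧ Odd x.den ∧
      (Odd x.num ↔ Odd x₀.num ∧ A) := by
    rcases lt_or_gt_of_ne hΔ with hneg | hpos
    · have h := values_neg W hneg f hf Λ hg₂ hg₃ hman q hq hqΔ hqo hΔ2 hss m hsq hm M K n hn htK htQ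
      have hA3 : A ↔ ∀ l : ℕ, l.Prime → (l : ℤ) ∣ discr K → l ≠ 2 → Odd ((l : ℤ) - pts W (ZMod l)) := by
        rw [hA]
        exact ⟨fun h => h.2, fun h => ⟨fun h0 => absurd h0 (not_lt.2 hneg.le), h⟩⟩
      rw [hA3]
      exact h
    · have h := values_pos W hpos f hf Λ hg₂ hg₃ hman q hq hqΔ hqo hΔ2 hss m hsq hm M K n hn htK htQ
      have hA3 : A ↔ (nrComplexPlaces K = 0 ∧
          ∀ l : ℕ, l.Prime → (l : ℤ) ∣ discr K → l ≠ 2 → Odd ((l : ℤ) - pts W (ZMod l))) := by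
        rw [hA, hreal_iff]
        exact ⟨fun h => ⟨h.1 hpos, h.2⟩, fun h => ⟨fun _ => h.1, h.2⟩⟩
      rw [hA3]
      exact h
  -- the algebraic side
  have hdown : (rank K W = 0 ∧ Sha2 K W = {0}) → (rank ℚ W = 0 ∧ Sha2 ℚ W = {0}) ∧ A := by
    rw [side_iff W hΔ, side_iff W hΔ, hA2]
    exact Pool.Agent.K4H53.BSR.alg_down4 W hΔ M K n hn hnr hdisc
  have hup : Odd (Tam ℚ W) → (rank ℚ W = 0 ∧ Sha2 ℚ W = {0}) ∧ A →
      (rank K W = 0 ∧ Sha2 K W = {0}) := by
    intro hT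
    rw [side_iff W hΔ, side_iff W hΔ, hA2]
    rintro ⟨h1, h2⟩
    exact Pool.Agent.K4H53.BSR.alg_up4 W hΔ hΔ2 ha1 m hmodd M K n hn hnr hdisc
      ((Pool.Agent.R425.G.tam_odd_iff (K := ℚ) W hΔ).1 hT) h1 h2
  refine ⟨⟨hminK, Pool.Agent.R425.G.cv_fin W hΔ, Pool.Agent.R425.G.cv_fin W hΔ, htK, htQ,
    hTam⟩, ⟨x₀, x, hx₀, hx, hx₀d, hxd, hxx⟩, hdown, hup, ?_, ?_, ?_⟩
  · rintro ⟨y, hy, hyd, hyn⟩
    rw [value_uniq W hO0 hy hx₀] at hyn
    refine ⟨x, hx, hxd, ?_⟩
    rw [hxx, hyn, hTam]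
    constructor
    · rintro ⟨⟨h1, h2, h3⟩, h4⟩
      obtain ⟨h5, h6⟩ := hup h3 ⟨⟨h1, h2⟩, h4⟩
      exact ⟨h5, h6, h3⟩
    · rintro ⟨h1, h2, h3⟩
      obtain ⟨⟨h4, h5⟩, h6⟩ := hdown ⟨h1, h2⟩
      exact ⟨⟨h4, h5, h3⟩, h6⟩
  · rintro hA' ⟨y, hy, hyd, hyn⟩
    rw [value_uniq W hOK hy hx] at hyn
    refine ⟨x₀, hx₀, hx₀d, ?_⟩
    rw [hTam] at hyn
    constructor
    · intro h
      obtain ⟨h1, h2, h3⟩ := hyn.1 (hxx.2 ⟨h, hA'⟩)
      obtain ⟨⟨h4, h5⟩, -⟩ := hdown ⟨h1, h2⟩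
      exact ⟨h4, h5, h3⟩
    · rintro ⟨h1, h2, h3⟩
      obtain ⟨h4, h5⟩ := hup h3 ⟨⟨h1, h2⟩, hA'⟩
      exact (hxx.1 (hyn.2 ⟨h4, h5, h3⟩)).1
  · intro hA'
    refine ⟨x, hx, hxd, ?_⟩
    constructor
    · intro h
      exact absurd (hxx.1 h).2 hA'
    · rintro ⟨h1, h2, -⟩
      exact absurd (hdown ⟨h1, h2⟩).2 hA'

/-- The equation `y² + y = x³ - x² - 10 x - 20` of the modular curve `X_0(11)`. -/
def X11 : WeierstrassCurve ℤ := ⟨0, -1, 1, -10, -20⟩

/-- The conditions on the curve: the equation `W` is minimal at all primes; there is a newform `f` of `W`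
such that the periods of `2 π i f(z) dz` on `Γ₀(N)`, times an odd integer `c`, are in the period lattice of
the differential `dx / (2 y + a₁ x + a₃)` of `W`, which is the lattice with `g₂ = c₄ / 12` and
`g₃ = c₆ / 216` (the Manin constant is odd); and `a_q` is odd for some prime `q` that does not divide
`2 Δ`. -/
structure Good (W : WeierstrassCurve ℤ) : Prop where
  ne : W.Δ ≠ 0
  min : ∀ p : HeightOneSpectrum (𝓞 ℚ), MinimalAt W p
  form : ∃ N : ℕ, N ≠ 0 ∧ ∃ f : CuspForm (Gamma0 N : Subgroup (GL (Fin 2) ℝ)) 2, IsNewform W N f ∧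
    ∃ Λ : PeriodPair, Λ.g₂ = (W.c₄ : ℂ) / 12 ∧ Λ.g₃ = (W.c₆ : ℂ) / 216 ∧
      ∃ c : ℤ, Odd c ∧ ∀ γ ∈ Gamma0 N, ∀ z : ℍ,
        (c : ℂ) * (prim f ((γ • z : ℍ) : ℂ) - prim f (z : ℂ)) ∈ Λ.lattice
  odd : ∃ q : ℕ, q.Prime ∧ ¬ (q : ℤ) ∣ 2 * W.Δ ∧ Odd ((q : ℤ) - pts W (ZMod q))

/-- The statement `A`: `a_l` is odd for all odd primes `l` that divide the discriminant of `K`, and `K` is
totally real if `Δ > 0`. -/
def A (K : Type) [Field K] [NumberField K] (W : WeierstrassCurve ℤ) : Prop :=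
  (0 < W.Δ → IsTotallyReal K) ∧
    ∀ l : ℕ, l.Prime → (l : ℤ) ∣ discr K → l ≠ 2 → Odd ((l : ℤ) - pts W (ZMod l))

/-- The comparison of `ℚ` and `K`. -/
structure Compare (K : Type) [Field K] [NumberField K] (W : WeierstrassCurve ℤ) : Prop where
  /-- the equation is minimal over `K` -/
  min : ∀ v : HeightOneSpectrum (𝓞 K), MinimalAt W v
  /-- almost all the Tamagawa numbers are one -/
  fin : {v : HeightOneSpectrum (𝓞 K) | c W v ≠ 1}.Finite ∧
    {p : HeightOneSpectrum (𝓞 ℚ) | c W p ≠ 1}.Finite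
  /-- the Tamagawa products have the same parity -/
  tam : Odd (Tam K W) ↔ Odd (Tam ℚ W)
  /-- the values -/
  value : ∃ x₀ x : ℚ, HasValue ℚ W x₀ ∧ HasValue K W x ∧ Odd x₀.den ∧ Odd x.den ∧
    (Odd x.num ↔ Odd x₀.num ∧ A K W)
  /-- from `K` to `ℚ` -/
  down : (rank K W = 0 ∧ Sha2 K W = {0}) → (rank ℚ W = 0 ∧ Sha2 ℚ W = {0}) ∧ A K W
  /-- from `ℚ` to `K` -/
  up : Odd (Tam ℚ W) → (rank ℚ W = 0 ∧ Sha2 ℚ W = {0}) ∧ A K W → (rank K W = 0 ∧ Sha2 K W = {0})
  /-- the formula modulo 2, from `ℚ` to `K` -/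
  bsd : BSDModTwo ℚ W → BSDModTwo K W
  /-- the formula modulo 2, from `K` to `ℚ` -/
  bsd_conv : A K W → BSDModTwo K W → BSDModTwo ℚ W
  /-- the formula modulo 2 if `A` is false -/
  bsd_not : ¬ A K W → BSDModTwo K W

lemma compare (W : WeierstrassCurve ℤ) (hW : Good W) (hΔ2 : ¬ (2 : ℤ) ∣ W.Δ)
    (hss : Even ((2 : ℤ) - pts W (ZMod 2))) (m : ℕ) [NeZero m] (hsq : Squarefree m)
    (hm : ∀ l : ℕ, l.Prime → l ∣ m → ¬ (l : ℤ) ∣ 2 * W.Δ)
    (M : Type) [Field M] [NumberField M] [IsCyclotomicExtension {4 * m} ℚ M]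
    (K : IntermediateField ℚ M) (n : ℕ) (hn : Module.finrank ℚ K = 2 ^ n) : Compare K W := by
  obtain ⟨N, hN, f, hf, Λ, hg₂, hg₃, hman⟩ := hW.form
  obtain ⟨q, hq, hqΔ, hqo⟩ := hW.odd
  have : NeZero N := ⟨hN⟩
  obtain ⟨⟨h1, h2, h3, -, -, h4⟩, h5, h6, h7, h8, h9, h10⟩ := general W hW.ne hW.min f hf Λ hg₂ hg₃
    hman q hq hqΔ hqo hΔ2 hss m hsq hm M K n hn (A K W) Iff.rfl
  exact ⟨h1, ⟨h2, h3⟩, h4, h5, h6, h7, h8, h9, h10⟩

lemma good11 : Good X11 := by
  obtain ⟨Λ, h2, h3, hman⟩ := Pool.Agent.K4H53.BSX.Q11.man11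
  refine ⟨Pool.Agent.K4H53.BSX.Q11.disc_ne, Pool.Agent.K4H53.BSX.Q11.min11, ⟨11, by norm_num,
    Pool.Agent.W97.TW.f11, ⟨Pool.Agent.K4H53.BSX.form11.one, Pool.Agent.K4H53.BSX.form11.real,
      Pool.Agent.K4H53.BSX.form11.mul, Pool.Agent.K4H53.BSX.form11.pow,
      Pool.Agent.K4H53.BSX.form11.good, Pool.Agent.K4H53.BSX.form11.bad,
      Pool.Agent.K4H53.BSX.form11.fricke, Pool.Agent.K4H53.BSX.form11.level,
      Pool.Agent.K4H53.BSX.form11.coef⟩, Λ, h2, h3, hman⟩, ⟨3, by norm_num,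
    Pool.Agent.K4H53.BSX.Q11.not3, Pool.Agent.K4H53.BSX.a3_odd⟩⟩

/-- **Main theorem.** Let `m` be squarefree and prime to `2 Δ`, `M` the `4 m`-th cyclotomic field, `K` a
subfield of degree `2^n`.  First part: `W` is a minimal equation, with the conditions `Good`, of an
elliptic curve over `ℚ` with supersingular reduction at two: `Δ` is odd and `a_2` is even.  Second part:
`X_0(11)` satisfies the conditions, and the formula modulo 2 holds over all these fields `K`. -/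
theorem result :
    (∀ W : WeierstrassCurve ℤ, Good W → ¬ (2 : ℤ) ∣ W.Δ → Even ((2 : ℤ) - pts W (ZMod 2)) →
      ∀ (m : ℕ) [NeZero m], Squarefree m → (∀ l : ℕ, l.Prime → l ∣ m → ¬ (l : ℤ) ∣ 2 * W.Δ) →
      ∀ (M : Type) [Field M] [NumberField M] [IsCyclotomicExtension {4 * m} ℚ M]
        (K : IntermediateField ℚ M) (n : ℕ), Module.finrank ℚ K = 2 ^ n → Compare K W) ∧
    (Good X11 ∧ ∀ (m : ℕ) [NeZero m], Squarefree m → m.Coprime 22 →
      ∀ (M : Type) [Field M] [NumberField M] [IsCyclotomicExtension {4 * m} ℚ M]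
        (K : IntermediateField ℚ M) (n : ℕ), Module.finrank ℚ K = 2 ^ n →
        BSDModTwo K X11 ∧ Odd (Tam K X11) ∧ ((rank K X11 = 0 ∧ Sha2 K X11 = {0}) ↔
          ∀ l : ℕ, l.Prime → (l : ℤ) ∣ discr K → l ≠ 2 → Odd ((l : ℤ) - pts X11 (ZMod l)))) := by
  refine ⟨fun W hW hΔ2 hss m _ hsq hm M _ _ _ K n hn => compare W hW hΔ2 hss m hsq hm M K n hn,
    good11, ?_⟩
  intro m _ hsq hco M _ _ _ K n hn
  obtain ⟨hQ, hTQ, hsQ⟩ := Pool.Agent.K4H53.BSX.Q11.bsd_Q
  have h := compare X11 good11 Pool.Agent.K4H53.BSX.Q11.disc_odd Pool.Agent.K4H53.BSX.a2_even m hsq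
    (by
      intro l hl h h1
      have h4 := Pool.Agent.K4H53.BSX.Q11.dvd2 hl h1
      have h5 : l ∣ Nat.gcd m 22 := Nat.dvd_gcd h h4
      rw [hco] at h5
      exact hl.one_lt.ne' (Nat.dvd_one.1 h5)) M K n hn
  refine ⟨h.bsd hQ, h.tam.2 hTQ, ?_⟩
  constructor
  · intro h0
    exact (h.down h0).2.2
  · intro h0
    exact h.up hTQ ⟨hsQ, fun h1 => absurd h1 (not_lt.2 Pool.Agent.K4H53.BSX.Q11.disc_lt.le), h0⟩

end Pool.Agent.Results.MP_1a91b9_nt.FormulaModTwoRamified
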