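import Pool.Agent.K4H53.DP.Rel
import Pool.Agent.K4H53.BSX.Q11

/-!
# Twists of elliptic curves by characters of 2-power order: the algebraic part of the central value at 2

`E` is an elliptic curve over `ℚ` with the equation `W` and the newform `f` of level `N`, and `χ` is a
primitive Dirichlet character of conductor `q` prime to `N`.  The motive `M = h¹(E) ⊗ χ` has the
coefficients `F = ℚ(χ)`, rank two and weight one; by Deligne's conjecture (here a theorem of Manin and
Shimura) `L(E, χ, 1) = A(χ) Ω(χ) / τ(χ̄)` with `A(χ)` in `ℚ(χ)`, where `Ω(χ)` is the real period of `W` if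
`χ` is even, and `i` times the imaginary period if `χ` is odd.  We take all the characters of 2-power order.
Assume that `a_l(E)` is odd for some prime `l` that does not divide `2 Δ` and that the periods of `f` are in
an odd multiple of the lattice of `W`.

* `A(χ)` is integral at two, and (if `Δ < 0` or `χ` is even) it is a unit at two if and only if
  `L(E, 1) / Ω` is a quotient of two odd numbers, `a_l(E)` is odd for all odd primes `l ∣ q`, and, if `q` is
  even, `8 ∤ q` and `a_2(E)` is even.  In particular `L(E, χ, 1) ≠ 0` for all such characters.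
* For all families of such curves and characters with non-zero values and for all integers `n_i` the
  number `P = ∏ A(χ_i)^(n_i)` is in `ℚ(χ_1, χ_2, …)`, and it generates a field that contains
  `∏ χ_i(N_i)^(n_i)`; it is a unit at two if all `A(χ_i)` are units at two.
* For `X_0(11)` the hypotheses are proved.

Proof.  The modular symbols `{u / q}` are in an odd multiple of the lattice; so `A(χ)` is a combination of
the values of `χ` with coefficients in the fractions of odd denominator, and modulo the prime above two it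
is half the sum of all the symbols with denominator `q`.  By the relations of Hecke this is
`∏ (a_l - 2)` times `L(E, 1)`, over the prime divisors of `q`, if `q` is odd; for `4 ∥ q` there is the
factor `a_2² - 2 a_2 - 1`, and for `8 ∣ q` the recursion `S(4 q) = a_2 S(2 q) - 2 S(q)` gives an even factor.
By the functional equation `A(χ) = ± χ(-N) conj (A(χ))`.
-/

set_option autoImplicit false

open MeasureTheory
open UpperHalfPlane MatrixGroups CongruenceSubgroup

namespace Pool.Agent.Results.MP_cd171c_nt.TwoAdicUnitTwists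

/-- The curve given by the equation of `W` over the ring `R`. -/
abbrev base (W : WeierstrassCurve ℤ) (R : Type) [CommRing R] : WeierstrassCurve R :=
  W.map (Int.castRingHom R)

/-- The number of the affine points `(x, y)` over the ring `R`. -/
noncomputable def pts (W : WeierstrassCurve ℤ) (R : Type) [CommRing R] : ℕ :=
  Nat.card {P : R × R // (base W R).toAffine.Equation P.1 P.2}

/-- `4 x³ + b₂ x² + 2 b₄ x + b₆ = (2 y + a₁ x + a₃)²`, where `b₂ = a₁² + 4 a₂`,
`b₄ = 2 a₄ + a₁ a₃`, `b₆ = a₃² + 4 a₆`. -/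
def cubic (W : WeierstrassCurve ℤ) {R : Type} [CommRing R] (x : R) : R :=
  4 * x ^ 3 + W.b₂ * x ^ 2 + 2 * W.b₄ * x + W.b₆

/-- The real period `∫_{W(ℝ)} |ω|` with `ω = dx / (2 y + a₁ x + a₃)`, as an integral over `x`: two real
points lie over each `x` with `cubic x > 0`. -/
noncomputable def realPeriod (W : WeierstrassCurve ℤ) : ℝ :=
  2 * ∫ x in {x : ℝ | 0 < cubic W x}, 1 / √(cubic W x)

/-- `2 ∫_{W(ℂ)} |ω ∧ ω̄|`, where `|ω ∧ ω̄| = du dv` in a local parameter `z = u + i v` with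
`dz = ω`, as an integral over `x`: two points lie over a general `x`, and `|ω ∧ ω̄|` is the area
element of the plane of `x` divided by `|cubic x|`. -/
noncomputable def complexPeriod (W : WeierstrassCurve ℤ) : ℝ := 2 * (2 * ∫ x : ℂ, 1 / ‖cubic W x‖)

section modular

variable {N : ℕ}

/-- The `n`-th coefficient of the cusp form `f = ∑ a_n q^n`. -/
noncomputable def co (f : CuspForm (Gamma0 N : Subgroup (GL (Fin 2) ℝ)) 2) (n : ℕ) : ℂ :=
  (qExpansion 1 f).coeff n

/-- `2 π i ∫_(i∞)^z f(w) dw = ∑ a_n / n e^(2 π i n z)`. -/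
noncomputable def prim (f : CuspForm (Gamma0 N : Subgroup (GL (Fin 2) ℝ)) 2) (z : ℂ) : ℂ :=
  ∑' n : ℕ, co f n / n * Complex.exp (2 * Real.pi * Complex.I * n * z)

/-- The cusp form `f` of weight two for `Γ₀(N)` is the newform of `W`: it is a normalised eigenform
of the Hecke operators and of the Fricke involution, with real coefficients that satisfy the bounds
of Hasse, `N` has the same prime divisors as the discriminant, and `a_p = p + 1 - #W(𝔽_p)`. -/
structure IsNewform (W : WeierstrassCurve ℤ) (N : ℕ)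
    (f : CuspForm (Gamma0 N : Subgroup (GL (Fin 2) ℝ)) 2) : Prop where
  one : co f 1 = 1
  real : ∀ n, (co f n).im = 0
  mul : ∀ m n : ℕ, Nat.Coprime m n → co f (m * n) = co f m * co f n
  pow : ∀ p j : ℕ, p.Prime → co f (p ^ (j + 2)) = co f p * co f (p ^ (j + 1)) -
      (if p ∣ N then 0 else (p : ℂ) * co f (p ^ j))
  good : ∀ p : ℕ, p.Prime → ¬ p ∣ N → ‖co f p‖ ≤ 2 * Real.sqrt p
  bad : ∀ p : ℕ, p.Prime → p ∣ N → ‖co f p‖ ≤ 1
  fricke : ∃ w : ℝ, (w = 1 ∨ w = -1) ∧ ∀ τ τ' : ℍ, (τ' : ℂ) * ((N : ℂ) * (τ : ℂ)) = -1 →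
    f τ' = -(w : ℂ) * (N : ℂ) * (τ : ℂ) ^ 2 * f τ
  level : ∀ p : ℕ, p.Prime → (p ∣ N ↔ (p : ℤ) ∣ W.Δ)
  coef : ∀ p : ℕ, p.Prime → co f p = (p : ℂ) - (pts W (ZMod p) : ℂ)

/-- The conditions on the curve: `Δ ≠ 0`, and `f` is the newform of `W`, of level `N ≠ 0`; the periods of
`2 π i f(z) dz` on `Γ₀(N)`, times an odd integer `c`, are in the period lattice of the differential
`dx / (2 y + a₁ x + a₃)` of `W`, which is the lattice with `g₂ = c₄ / 12` and `g₃ = c₆ / 216` (the Manin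
constant is odd); and `a_l` is odd for some prime `l` that does not divide `2 Δ`. -/
structure Good (W : WeierstrassCurve ℤ) (N : ℕ)
    (f : CuspForm (Gamma0 N : Subgroup (GL (Fin 2) ℝ)) 2) : Prop where
  ne : W.Δ ≠ 0
  level : N ≠ 0
  form : IsNewform W N f
  manin : ∃ Λ : PeriodPair, Λ.g₂ = (W.c₄ : ℂ) / 12 ∧ Λ.g₃ = (W.c₆ : ℂ) / 216 ∧
    ∃ c : ℤ, Odd c ∧ ∀ γ ∈ Gamma0 N, ∀ z : ℍ,
      (c : ℂ) * (prim f ((γ • z : ℍ) : ℂ) - prim f (z : ℂ)) ∈ Λ.lattice
  odd : ∃ l : ℕ, l.Prime ∧ ¬ (l : ℤ) ∣ 2 * W.Δ ∧ Odd ((l : ℤ) - pts W (ZMod l))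

/-- `z = L(f, χ, 1)`: the value at `1` of the entire function which equals `∑ χ(n) a_n n^(-s)` for
`Re s > 3/2`. -/
def CentralValue (f : CuspForm (Gamma0 N : Subgroup (GL (Fin 2) ℝ)) 2) {q : ℕ}
    (χ : DirichletCharacter ℂ q) (z : ℂ) : Prop :=
  ∃ L : ℂ → ℂ, Differentiable ℂ L ∧ (∀ s : ℂ, 3 / 2 < s.re →
    HasSum (fun n : ℕ => χ (n : ZMod q) * co f n * (n : ℂ) ^ (-s)) (L s)) ∧ z = L 1

end modular

open Classical in
/-- The period `Ω(χ)`: the real period `Ω` of `W` if `χ` is even, and `i` times `complexPeriod / Ω` (the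
imaginary period, up to a factor `2`) if `χ` is odd. -/
noncomputable def period (W : WeierstrassCurve ℤ) {q : ℕ} (χ : DirichletCharacter ℂ q) : ℂ :=
  if χ (-1) = 1 then (realPeriod W : ℂ) else
    Complex.I * ((complexPeriod W : ℂ) / (realPeriod W : ℂ))

/-- `A` is the algebraic part of the central value: `L(f, χ, 1) = A Ω(χ) / τ(χ̄)`, where `τ(χ̄)` is the
Gauss sum. -/
def AlgPart (W : WeierstrassCurve ℤ) {N : ℕ}
    (f : CuspForm (Gamma0 N : Subgroup (GL (Fin 2) ℝ)) 2) {q : ℕ} [NeZero q]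
    (χ : DirichletCharacter ℂ q) (A : ℂ) : Prop :=
  ∃ z : ℂ, CentralValue f χ z ∧ gaussSum χ⁻¹ (ZMod.stdAddChar (N := q)) * z = A * period W χ

/-- The set of the values of `χ`. -/
def values {q : ℕ} (χ : DirichletCharacter ℂ q) : Set ℂ := Set.range fun a : ZMod q => χ a

/-- `x` is integral at two: `D x` is in the ring `ℤ[S]` for an odd integer `D`. -/
def TwoIntegral (S : Set ℂ) (x : ℂ) : Prop :=
  ∃ D : ℤ, Odd D ∧ (D : ℂ) * x ∈ Algebra.adjoin ℤ S

/-- `x` is a unit at two: `x ≠ 0`, and `x` and `1 / x` are integral at two. -/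
def TwoUnit (S : Set ℂ) (x : ℂ) : Prop := x ≠ 0 ∧ TwoIntegral S x ∧ TwoIntegral S x⁻¹

/-- `L(E, 1) / Ω` is a quotient of two odd integers. -/
def OddAtOne (W : WeierstrassCurve ℤ) {N : ℕ}
    (f : CuspForm (Gamma0 N : Subgroup (GL (Fin 2) ℝ)) 2) : Prop :=
  ∃ (z : ℂ) (a b : ℤ), CentralValue f (1 : DirichletCharacter ℂ 1) z ∧ Odd a ∧ Odd b ∧
    b * z = a * (realPeriod W : ℂ)

/-- `a_l` is odd for all odd primes `l ∣ q`, and if `q` is even then `8 ∤ q` and `a_2` is even. -/
def Criterion (W : WeierstrassCurve ℤ) (q : ℕ) : Prop :=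
  (∀ l : ℕ, l.Prime → l ∣ q → l ≠ 2 → Odd ((l : ℤ) - pts W (ZMod l))) ∧
    (2 ∣ q → ¬ 8 ∣ q ∧ Even ((2 : ℤ) - pts W (ZMod 2)))

/-- The equation `y² + y = x³ - x² - 10 x - 20` of the modular curve `X_0(11)`. -/
def X11 : WeierstrassCurve ℤ := ⟨0, -1, 1, -10, -20⟩

section proof

variable {W : WeierstrassCurve ℤ} {N : ℕ} {f : CuspForm (Gamma0 N : Subgroup (GL (Fin 2) ℝ)) 2}

lemma isForm (h : IsNewform W N f) : Pool.Agent.Y702.G.IsForm W N f :=
  ⟨h.one, h.real, h.mul, h.pow, h.good, h.bad, h.fricke, h.level, h.coef⟩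

/-- the value is unique -/
lemma value_uniq {q : ℕ} {χ : DirichletCharacter ℂ q} {z z' : ℂ} (h : CentralValue f χ z)
    (h' : CentralValue f χ z') : z = z' := by
  obtain ⟨L, h1, h2, rfl⟩ := h
  obtain ⟨L', h1', h2', rfl⟩ := h'
  have : L = L' := Pool.Agent.K4H15.GM.entire_eq' h1 h1' (3 / 2) fun s hs =>
    (h2 s hs).unique (h2' s hs)
  rw [this]

/-- the value at the trivial character -/
lemma value_one [NeZero N] (hf : Pool.Agent.Y702.G.IsForm W N f) :
    ∃ z, CentralValue f (1 : DirichletCharacter ℂ 1) z ∧ z = Pool.Agent.Y18.BSD.bv f 0 := by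
  obtain ⟨w, L, hw, hL1, hL2, hL3, -⟩ := Pool.Agent.K4H53.DP.exists_twist hf
    (1 : DirichletCharacter ℂ 1) DirichletCharacter.isPrimitive_one_level_one
    (Nat.coprime_one_left N)
  refine ⟨L 1, ⟨L, hL1, hL2, rfl⟩, ?_⟩
  have h1 : gaussSum (1 : DirichletCharacter ℂ 1)⁻¹ (ZMod.stdAddChar (N := 1)) = 1 := by
    have h0 : ∀ x : ZMod 1, (1 : DirichletCharacter ℂ 1) x * ZMod.stdAddChar (N := 1) x = 1 := by
      intro x
      obtain rfl : x = 1 := Subsingleton.elim _ _
      rw [map_one, one_mul]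
      have h00 : (1 : ZMod 1) = 0 := Subsingleton.elim _ _
      rw [h00, AddChar.map_zero_eq_one]
    unfold gaussSum
    rw [Fintype.sum_unique, inv_one]
    exact h0 _
  rw [h1, one_mul] at hL3
  rw [hL3, Fintype.sum_unique]
  have h2 : (1 : DirichletCharacter ℂ 1)⁻¹ (((default : (ZMod 1)ˣ)) : ZMod 1) = 1 := by
    have h0 : (((default : (ZMod 1)ˣ)) : ZMod 1) = 1 := Subsingleton.elim _ _
    rw [h0]
    exact map_one _
  have h3 : (((((default : (ZMod 1)ˣ)) : ZMod 1)).val : ℚ) / ((1 : ℕ) : ℚ) = 0 := by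
    have : ((((default : (ZMod 1)ˣ)) : ZMod 1)).val = 0 := by
      have := ZMod.val_lt (((default : (ZMod 1)ˣ)) : ZMod 1)
      omega
    rw [this]
    simp
  rw [h2, h3, one_mul]

/-- the facts on one twist -/
lemma one_twist (hW : Good W N f) : ∃ s : ℤ, (OddAtOne W f ↔ Odd s) ∧
    0 < realPeriod W ∧ 0 < complexPeriod W ∧
    ∀ (q : ℕ) [NeZero q], q.Coprime N → ∀ χ : DirichletCharacter ℂ q, χ.IsPrimitive →
      (∃ r : ℕ, χ ^ (2 ^ r) = 1) →
      (∃ A, AlgPart W f χ A) ∧ ∀ A, AlgPart W f χ A → TwoIntegral (values χ) A ∧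
        ((0 < W.Δ → χ (-1) = 1) → (TwoUnit (values χ) A ↔ Odd s ∧ Criterion W q)) ∧
        ∃ w : ℂ, (w = 1 ∨ w = -1) ∧
          A = w * χ (-1) * χ (N : ZMod q) * (starRingEnd ℂ) A := by
  obtain ⟨Λ, hg₂, hg₃, hman⟩ := hW.manin
  obtain ⟨l, hl, hlΔ, hlo⟩ := hW.odd
  have : NeZero N := ⟨hW.level⟩
  have hf := isForm hW.form
  obtain ⟨s, t, ht, hst, hrp, hcp, hmain⟩ := Pool.Agent.K4H53.DP.main_sum hW.ne hf Λ hg₂ hg₃ hman l hl
    hlΔ hlo
  have hrp' : 0 < realPeriod W := hrp
  have hcp' : 0 < complexPeriod W := hcp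
  have hrp0 : (realPeriod W : ℂ) ≠ 0 := by exact_mod_cast hrp'.ne'
  have hper : ∀ {q : ℕ} (χ : DirichletCharacter ℂ q), Pool.Agent.K4H53.DP.per W χ ≠ 0 := by
    intro q χ
    unfold Pool.Agent.K4H53.DP.per
    split_ifs
    · exact hrp0
    · refine mul_ne_zero Complex.I_ne_zero (div_ne_zero ?_ hrp0)
      have : complexPeriod W ≠ 0 := hcp'.ne'
      exact_mod_cast this
  have hQ := value_one hf
  obtain ⟨z₀, hz₀, hz₀'⟩ := hQ
  have hst' : (t : ℂ) * z₀ = s * (realPeriod W : ℂ) := by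
    rw [hz₀']
    exact hst
  refine ⟨s, ?_, hrp', hcp', ?_⟩
  · constructor
    · rintro ⟨z, a, b, hz, ha, hb, hab⟩
      rw [value_uniq hz hz₀] at hab
      have h1 : ((b * s : ℤ) : ℂ) * (realPeriod W : ℂ) = ((a * t : ℤ) : ℂ) * (realPeriod W : ℂ) := by
        push_cast
        linear_combination (t : ℂ) * hab - (b : ℂ) * hst'
      have h2 := mul_right_cancel₀ hrp0 h1
      have h3 : b * s = a * t := by exact_mod_cast h2
      have h4 : Odd (b * s) := by
        rw [h3]
        exact ha.mul ht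
      exact (Int.odd_mul.1 h4).2
    · intro hs
      exact ⟨z₀, s, t, hz₀, hs, ht, hst'⟩
  · intro q _ hco χ hχ hr
    obtain ⟨r, hr⟩ := hr
    obtain ⟨w, L, hw, hL1, hL2, hL3, hL4⟩ := Pool.Agent.K4H53.DP.exists_twist hf χ hχ hco
    obtain ⟨D, c, hD, hDc, hodd⟩ := hmain q hco χ hχ r hr
    have hcv : CentralValue f χ (L 1) := ⟨L, hL1, hL2, rfl⟩
    have hp := hper χ
    refine ⟨⟨gaussSum χ⁻¹ (ZMod.stdAddChar (N := q)) * L 1 / Pool.Agent.K4H53.DP.per W χ, L 1, hcv, ?_⟩,
      ?_⟩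
    · exact (div_mul_cancel₀ _ hp).symm
    · rintro A ⟨z, hz, hA⟩
      rw [value_uniq hz hcv] at hA
      have hA' : gaussSum χ⁻¹ (ZMod.stdAddChar (N := q)) * L 1 = A * Pool.Agent.K4H53.DP.per W χ := hA
      have hDA : (D : ℂ) * A = ∑ u : (ZMod q)ˣ, χ (u : ZMod q) * (c u : ℂ) := by
        apply mul_right_cancel₀ hp
        rw [mul_assoc, ← hA', hL3, hDc]
        ring
      obtain ⟨h1, h2⟩ := Pool.Agent.K4H53.DP.unit_crit χ hr c hD hDA
      exact ⟨h1, fun h => h2.trans (hodd h), w, hw,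
        Pool.Agent.K4H53.DP.alg_conj hχ hco hw hL4 hA' hp⟩

end proof

/-- **Main theorem.** First part: `χ` is a primitive Dirichlet character of 2-power order and of conductor
`q` prime to `N`.  The algebraic part `A` of the central value exists and is integral at two, and if
`Δ < 0` or `χ` is even, then it is a unit at two if and only if `L(E, 1) / Ω` is a quotient of odd
numbers, `a_l` is odd for all odd primes `l ∣ q`, and, if `q` is even, `8 ∤ q` and `a_2` is even.

Second part: for a finite family of curves `W_i`, characters `χ_i` and integers `n_i`, let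
`P = ∏ A_i^(n_i)` with the algebraic parts `A_i`, all different from zero.  Then `P` is in the field
generated by the values of all the characters, the number `∏ χ_i(N_i)^(n_i)` is in the field `ℚ(P)`, and
`P` is a unit at two if all the `A_i` are.

Third part: `X_0(11)` satisfies the conditions, with `L(E, 1) / Ω` a quotient of odd numbers. -/
theorem result :
    (∀ (W : WeierstrassCurve ℤ) (N : ℕ) (f : CuspForm (Gamma0 N : Subgroup (GL (Fin 2) ℝ)) 2),
      Good W N f → ∀ (q : ℕ) [NeZero q], q.Coprime N → ∀ χ : DirichletCharacter ℂ q,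
      χ.IsPrimitive → (∃ r : ℕ, χ ^ (2 ^ r) = 1) →
      (∃ A, AlgPart W f χ A) ∧ ∀ A, AlgPart W f χ A → TwoIntegral (values χ) A ∧
        ((0 < W.Δ → χ (-1) = 1) → (TwoUnit (values χ) A ↔ OddAtOne W f ∧ Criterion W q))) ∧
    (∀ (ι : Type) [Fintype ι] (W : ι → WeierstrassCurve ℤ) (N : ι → ℕ)
      (f : (i : ι) → CuspForm (Gamma0 (N i) : Subgroup (GL (Fin 2) ℝ)) 2),
      (∀ i, Good (W i) (N i) (f i)) → ∀ (q : ι → ℕ) [∀ i, NeZero (q i)],
      (∀ i, (q i).Coprime (N i)) → ∀ χ : (i : ι) → DirichletCharacter ℂ (q i),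
      (∀ i, (χ i).IsPrimitive) → (∀ i, ∃ r : ℕ, χ i ^ (2 ^ r) = 1) →
      ∀ (n : ι → ℤ) (A : ι → ℂ), (∀ i, AlgPart (W i) (f i) (χ i) (A i)) → (∀ i, A i ≠ 0) →
      ∏ i, A i ^ n i ∈ IntermediateField.adjoin ℚ (⋃ i, values (χ i)) ∧
      ∏ i, (χ i) (N i : ZMod (q i)) ^ n i ∈ IntermediateField.adjoin ℚ {∏ i, A i ^ n i} ∧
      ((∀ i, TwoUnit (values (χ i)) (A i)) →
        TwoUnit (⋃ i, values (χ i)) (∏ i, A i ^ n i))) ∧
    (∃ f : CuspForm (Gamma0 11 : Subgroup (GL (Fin 2) ℝ)) 2, Good X11 11 f ∧ OddAtOne X11 f) := by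
  refine ⟨?_, ?_, ?_⟩
  · intro W N f hW q _ hco χ hχ hr
    obtain ⟨s, hs, -, -, h⟩ := one_twist hW
    obtain ⟨h1, h2⟩ := h q hco χ hχ hr
    refine ⟨h1, fun A hA => ?_⟩
    obtain ⟨h3, h4, -⟩ := h2 A hA
    exact ⟨h3, fun h5 => by rw [hs]; exact h4 h5⟩
  · intro ι _ W N f hW q _ hco χ hχ hr n A hA hA0
    classical
    have hall : ∀ i, TwoIntegral (values (χ i)) (A i) ∧ ∃ w : ℂ, (w = 1 ∨ w = -1) ∧
        A i = w * (χ i) (-1) * (χ i) (N i : ZMod (q i)) * (starRingEnd ℂ) (A i) := by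
      intro i
      obtain ⟨s, hs, -, -, h⟩ := one_twist (hW i)
      obtain ⟨h1, h2⟩ := h (q i) (hco i) (χ i) (hχ i) (hr i)
      obtain ⟨h3, -, h4⟩ := h2 (A i) (hA i)
      exact ⟨h3, h4⟩
    choose r hr' using hr
    set S : Set ℂ := ⋃ i, values (χ i) with hS
    have hsub : ∀ i, values (χ i) ⊆ S := fun i => Set.subset_iUnion (fun i => values (χ i)) i
    -- the roots of unity
    have hroot : ∀ x ∈ S, x = 0 ∨ x ^ (2 ^ (∑ i, r i)) = 1 := by
      intro x hx
      obtain ⟨i, a, rfl⟩ := Set.mem_iUnion.1 hx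
      show (χ i) a = 0 ∨ ((χ i) a) ^ _ = 1
      by_cases ha : IsUnit a
      · right
        obtain ⟨u, rfl⟩ := ha
        have h1 : ((χ i) (u : ZMod (q i))) ^ (2 ^ r i) = 1 := by
          rw [← MulChar.pow_apply_coe, hr' i, MulChar.one_apply_coe]
        have h2 : 2 ^ (r i) ∣ 2 ^ (∑ i, r i) :=
          pow_dvd_pow 2 (Finset.single_le_sum (fun _ _ => Nat.zero_le _) (Finset.mem_univ i))
        obtain ⟨k, hk⟩ := h2
        rw [hk, pow_mul, h1, one_pow]
      · left
        exact MulChar.map_nonunit _ ha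
    -- the field
    have hfield : ∀ i, A i ∈ IntermediateField.adjoin ℚ S := by
      intro i
      obtain ⟨D, hD, hDA⟩ := (hall i).1
      have hD0 : (D : ℂ) ≠ 0 := by
        have : D ≠ 0 := by rintro rfl; exact absurd hD (by decide)
        exact_mod_cast this
      have h1 : ∀ x ∈ Algebra.adjoin ℤ (values (χ i)), x ∈ IntermediateField.adjoin ℚ S := by
        intro x hx
        induction hx using Algebra.adjoin_induction with
        | mem x hx => exact IntermediateField.subset_adjoin ℚ S (hsub i hx)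
        | algebraMap m =>
          have : (algebraMap ℤ ℂ m) = ((m : ℤ) : ℂ) := rfl
          rw [this]
          exact intCast_mem _ m
        | add x y _ _ hx hy => exact add_mem hx hy
        | mul x y _ _ hx hy => exact mul_mem hx hy
      have h2 := h1 _ hDA
      have h3 : A i = (D : ℂ)⁻¹ * ((D : ℂ) * A i) := by field_simp
      rw [h3]
      exact mul_mem (inv_mem (intCast_mem _ D)) h2
    have hP : ∏ i, A i ^ n i ∈ IntermediateField.adjoin ℚ S :=
      prod_mem fun i _ => zpow_mem (hfield i) _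
    refine ⟨hP, ?_, ?_⟩
    · choose w hw hrel using fun i => (hall i).2
      set P : ℂ := ∏ i, A i ^ n i with hPdef
      have hP0 : P ≠ 0 := Finset.prod_ne_zero_iff.2 fun i _ => zpow_ne_zero _ (hA0 i)
      have : NeZero (2 ^ (∑ i, r i)) := ⟨by positivity⟩
      have hconj := Pool.Agent.K4H53.DP.conj_mem (2 ^ (∑ i, r i)) hroot hP
      have hcP0 : (starRingEnd ℂ) P ≠ 0 := (map_ne_zero _).2 hP0
      have h1 : P = (∏ i, (w i * (χ i) (-1)) ^ n i) * (∏ i, (χ i) (N i : ZMod (q i)) ^ n i) *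
          (starRingEnd ℂ) P := by
        conv_lhs => rw [hPdef]
        rw [hPdef, map_prod, ← Finset.prod_mul_distrib, ← Finset.prod_mul_distrib]
        refine Finset.prod_congr rfl fun i _ => ?_
        conv_lhs => rw [hrel i]
        rw [mul_zpow, mul_zpow, map_zpow₀]
      have hsq : (∏ i, (w i * (χ i) (-1)) ^ n i) * (∏ i, (w i * (χ i) (-1)) ^ n i) = 1 := by
        rw [← Finset.prod_mul_distrib]
        refine Finset.prod_eq_one fun i _ => ?_
        have e1 : w i * w i = 1 := by rcases hw i with h | h <;> rw [h] <;> norm_num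
        have e2 : (χ i) (-1) * (χ i) (-1) = 1 := by rw [← map_mul]; simp
        rw [← mul_zpow]
        have e3 : w i * (χ i) (-1) * (w i * (χ i) (-1)) = 1 := by
          calc w i * (χ i) (-1) * (w i * (χ i) (-1)) = (w i * w i) * ((χ i) (-1) * (χ i) (-1)) := by ring
            _ = 1 := by rw [e1, e2, one_mul]
        rw [e3, one_zpow]
      set sg : ℂ := ∏ i, (w i * (χ i) (-1)) ^ n i with hsg
      have hsg' : sg = 1 ∨ sg = -1 := mul_self_eq_one_iff.1 hsq
      have h2 : ∏ i, (χ i) (N i : ZMod (q i)) ^ n i = sg * P * ((starRingEnd ℂ) P)⁻¹ := by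
        have h3 : P * ((starRingEnd ℂ) P)⁻¹ = sg * ∏ i, (χ i) (N i : ZMod (q i)) ^ n i :=
          (mul_inv_eq_iff_eq_mul₀ hcP0).2 h1
        rw [mul_assoc, h3, ← mul_assoc, hsq, one_mul]
      rw [h2]
      refine mul_mem (mul_mem ?_ (IntermediateField.mem_adjoin_simple_self ℚ P)) (inv_mem hconj)
      rcases hsg' with h | h
      · rw [h]; exact one_mem _
      · rw [h]; exact neg_mem (one_mem _)
    · intro hu
      exact Pool.Agent.K4H53.DP.TwoUnit.prod _ _ fun i _ =>
        Pool.Agent.K4H53.DP.TwoUnit.zpow (Pool.Agent.K4H53.DP.TwoUnit.mono (hsub i) (hu i)) _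
  · obtain ⟨Λ, h2, h3, hman⟩ := Pool.Agent.K4H53.BSX.Q11.man11
    have hform := Pool.Agent.K4H53.BSX.form11
    have hgood : Good X11 11 Pool.Agent.W97.TW.f11 :=
      ⟨Pool.Agent.K4H53.BSX.Q11.disc_ne, by norm_num, ⟨hform.one, hform.real, hform.mul, hform.pow,
        hform.good, hform.bad, hform.fricke, hform.level, hform.coef⟩, ⟨Λ, h2, h3, hman⟩,
        ⟨3, by norm_num, Pool.Agent.K4H53.BSX.Q11.not3, Pool.Agent.K4H53.BSX.a3_odd⟩⟩
    refine ⟨Pool.Agent.W97.TW.f11, hgood, ?_⟩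
    obtain ⟨⟨x, hx, hxd, hxn⟩, hT, hr, hs⟩ := Pool.Agent.K4H53.BSX.Q11.bsd_Q
    have hxo : Odd x.num := hxn.2 ⟨hr, hs, hT⟩
    obtain ⟨L, hL1, hL2, hL3⟩ := hx
    obtain ⟨H, hH1, hH2, hH3⟩ := Pool.Agent.R425.G.exists_LQ hform
    have hLH : L = H := Pool.Agent.R425.G.L_uniq (W := Pool.Agent.Y702.E11) (K := ℚ) hL1 hH1 hL2 hH2
    obtain ⟨z, hz, hz'⟩ := value_one hform
    have hto : Odd (Nat.card (Pool.Agent.K4H53.BSX.D.tors ℚ Pool.Agent.Y702.E11)) :=
      Pool.Agent.R425.G.tors_odd Pool.Agent.Y702.E11 Pool.Agent.K4H53.BSX.Q11.disc_ne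
        (Pool.Agent.R425.G.no_root_Q Pool.Agent.Y702.E11 (l := 3) (by norm_num)
          Pool.Agent.K4H53.BSX.Q11.not3 Pool.Agent.K4H53.BSX.a3_odd)
    set T : ℕ := Nat.card (Pool.Agent.K4H53.BSX.D.tors ℚ Pool.Agent.Y702.E11) with hTdef
    rw [hLH, hH3, ← hz'] at hL3
    have hOm : Pool.Agent.K4H53.BSX.D.Omega ℚ Pool.Agent.Y702.E11 = realPeriod X11 := by
      unfold Pool.Agent.K4H53.BSX.D.Omega
      rw [NumberField.InfinitePlace.nrRealPlaces_eq_one_of_finrank_eq_one (Module.finrank_self ℚ),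
        NumberField.InfinitePlace.nrComplexPlaces_eq_zero_of_finrank_eq_one (Module.finrank_self ℚ),
        pow_one, pow_zero, mul_one]
      rfl
    refine ⟨z, x.num, x.den * (T : ℤ) ^ 2, hz, hxo, ?_, ?_⟩
    · exact Odd.mul (by exact_mod_cast hxd) (Odd.pow (by exact_mod_cast hto))
    · rw [hOm] at hL3
      have hx : (x : ℂ) = (x.num : ℂ) / (x.den : ℂ) := by
        conv_lhs => rw [← Rat.num_div_den x]
        push_cast
        rfl
      have hd : (x.den : ℂ) ≠ 0 := by exact_mod_cast x.den_nz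
      rw [hx] at hL3
      simp only [Rat.numberField_discr, Int.cast_one, abs_one, Real.sqrt_one, Complex.ofReal_one,
        mul_one] at hL3
      push_cast
      field_simp at hL3
      linear_combination hL3

end Pool.Agent.Results.MP_cd171c_nt.TwoAdicUnitTwists
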